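import Pool.Agent.H681.OE.Fin

/-!
# The error of the best Nyman-Beurling-Báez-Duarte approximations decides on the simplicity of the zeros
-/

set_option autoImplicit false

namespace Pool.Agent.Results.MP_6bc78b_nt.BestApproximationError

open Complex MeasureTheory Filter Topology Set

/-- the point `1/2 + it` -/
noncomputable def cl (t : ℝ) : ℂ := 1 / 2 + t * I

/-- the multiplicity of `1/2 + it` as a zero of `ζ` (= the multiplicity of `t` as a zero of Hardy's `Z`) -/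
noncomputable def mult (t : ℝ) : ℕ := analyticOrderNatAt riemannZeta (cl t)

/-- the real zeros of Hardy's `Z`: the ordinates of the zeros of `ζ` on the critical line -/
abbrev Zero : Set ℝ := {t : ℝ | riemannZeta (cl t) = 0}

/-- all real zeros of `Z` are simple -/
def AllSimple : Prop := ∀ t : ℝ, riemannZeta (cl t) = 0 → deriv riemannZeta (cl t) ≠ 0

/-- the error `χ(x) - ∑_θ a_θ {θ/x}`, `χ` the indicator of `(0, 1]` -/
noncomputable def err (a : ℝ →₀ ℝ) (x : ℝ) : ℝ :=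
  (if x ≤ 1 then 1 else 0) - a.sum fun θ c => c * Int.fract (θ / x)

/-- its squared norm in `L²(0, ∞)` -/
noncomputable def sq (a : ℝ →₀ ℝ) : ℝ := ∫ x in Ioi (0 : ℝ), err a x ^ 2

/-- the squared Nyman-Beurling distance: all dilations `θ ∈ [lam, 1]` are allowed -/
noncomputable def dist2 (lam : ℝ) : ℝ := ⨅ a : {a : ℝ →₀ ℝ // ∀ θ ∈ a.support, lam ≤ θ ∧ θ ≤ 1}, sq a

/-- only the dilations `1, 1/2, ..., 1/N` occur -/
def NatDil (N : ℕ) (a : ℝ →₀ ℝ) : Prop := ∀ θ ∈ a.support, ∃ n : ℕ, 1 ≤ n ∧ n ≤ N ∧ θ = 1 / (n : ℝ)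

/-- the best approximation of Báez-Duarte with `N` dilations -/
def Best (N : ℕ) (a : ℝ →₀ ℝ) : Prop := NatDil N a ∧ ∀ b : ℝ →₀ ℝ, NatDil N b → sq a ≤ sq b

/-- asymptotically optimal families of approximations (dilations in `[lam j, 1]`, `lam j → 0+`) -/
def AsympOpt (lam : ℕ → ℝ) (a : ℕ → (ℝ →₀ ℝ)) : Prop :=
  Tendsto lam atTop (𝓝[>] 0) ∧ (∀ᶠ j in atTop, ∀ θ ∈ (a j).support, lam j ≤ θ ∧ θ ≤ 1) ∧
    Tendsto (fun j => sq (a j) / dist2 (lam j)) atTop (𝓝 1)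

/-- the gap between the error and the prime error: with `L = log (1/lam)`,
`L ∫_lam^1 (err(x) - (1/x - ψ(1/x))/L)² dx` -/
noncomputable def gap (lam : ℝ) (a : ℝ →₀ ℝ) : ℝ :=
  Real.log (1 / lam) *
    ∫ x in Ioc lam 1, (err a x - (1 / x - Chebyshev.psi (1 / x)) / Real.log (1 / lam)) ^ 2

/-- the share of the error on `x > lam^u` -/
noncomputable def share (lam : ℝ) (a : ℝ →₀ ℝ) (u : ℝ) : ℝ := (∫ x in Ioi (lam ^ u), err a x ^ 2) / sq a

/-- `1 + ζ(1/2+it) ∑ a_θ θ^(1/2+it)`; divided by `1/2+it` it is the Mellin transform of the error -/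
noncomputable def tr (a : ℝ →₀ ℝ) (t : ℝ) : ℂ :=
  1 + riemannZeta (cl t) * a.sum fun θ c => (c : ℂ) * (θ : ℂ) ^ (cl t)

/-- the transform of the prime error on `[lam, 1]`: `∫_0^L (ψ(e^w) - e^w) e^{-(1/2+it)w} dw`, `L = log (1/lam)` -/
noncomputable def ptr (lam t : ℝ) : ℂ :=
  ∫ w in (0 : ℝ)..(Real.log (1 / lam)), ((Chebyshev.psi (Real.exp w) - Real.exp w : ℝ) : ℂ) * cexp (-(cl t * w))

/-- the part of the gap coming from the frequencies in `[α, β]` -/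
noncomputable def wgap (lam : ℝ) (a : ℝ →₀ ℝ) (α β : ℝ) : ℝ :=
  Real.log (1 / lam) * (1 / (2 * Real.pi) *
    ∫ t in α..β, ‖tr a t / cl t + ptr lam t / (Real.log (1 / lam) : ℂ)‖ ^ 2)

/-- `∑_{k<m} (2k+1) P_k`, `P_k` the shifted Legendre polynomials -/
noncomputable def pol (m : ℕ) : Polynomial ℝ :=
  ∑ k ∈ Finset.range m, Polynomial.C ((2 * k + 1 : ℕ) : ℝ) * (Polynomial.shiftedLegendre k).map (Int.castRingHom ℝ)

/-- the profile at a zero of multiplicity `m`: `∫_0^1 p_m(u) e^{-iuv} du`; `(1 - e^{-iv})/(iv)` for `m = 1` -/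
noncomputable def prof (m : ℕ) (v : ℝ) : ℂ := ∫ u in (0 : ℝ)..1, (((pol m).eval u : ℝ) : ℂ) * cexp (-(u * v * I))

theorem summable_S :
    Summable (fun g : Zero => 2 * (mult g : ℝ) * ((mult g : ℝ) - 1) / (1 / 4 + (g : ℝ) ^ 2)) := by
  have hs := Pool.Agent.H575.BD.sum2
  unfold Pool.Agent.Q286.BD.S_sum2 at hs
  have hre : ∀ g : ℝ, (cl g).re = 1 / 2 := by
    intro g
    simp [cl]
  let i : Zero → {s : ℂ // riemannZeta s = 0 ∧ 0 < s.re ∧ s.re < 1} := fun g =>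
    ⟨cl g, g.2, by rw [hre]; norm_num, by rw [hre]; norm_num⟩
  have hi : Function.Injective i := by
    intro g g' h
    have h1 : cl g = cl g' := congrArg Subtype.val h
    have h2 := congrArg Complex.im h1
    simp [cl] at h2
    exact Subtype.ext h2
  have h1 := (hs.comp_injective hi).mul_left 2
  refine Summable.of_nonneg_of_le (fun g => ?_) (fun g => ?_) h1
  · have h3 : 0 ≤ (mult g : ℝ) * ((mult g : ℝ) - 1) := by
      rcases Nat.eq_zero_or_pos (mult g) with h | h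
      · rw [h]; simp
      · have : (1 : ℝ) ≤ mult g := by exact_mod_cast h
        exact mul_nonneg (by linarith) (by linarith)
    have : 0 < 1 / 4 + (g : ℝ) ^ 2 := by positivity
    rw [mul_assoc]
    positivity
  · have e : ‖((i g : {s : ℂ // riemannZeta s = 0 ∧ 0 < s.re ∧ s.re < 1}) : ℂ)‖ ^ 2 = 1 / 4 + (g : ℝ) ^ 2 := by
      show ‖cl g‖ ^ 2 = _
      rw [← Complex.normSq_eq_norm_sq, Complex.normSq_apply, hre]
      simp [cl]
      ring
    have e2 : (Pool.Agent.Q286.BD.mz ((i g : {s : ℂ // riemannZeta s = 0 ∧ 0 < s.re ∧ s.re < 1}) : ℂ) : ℝ) = mult g := rfl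
    show _ ≤ 2 * ((Pool.Agent.Q286.BD.mz ((i g : {s : ℂ // riemannZeta s = 0 ∧ 0 < s.re ∧ s.re < 1}) : ℂ) : ℝ) ^ 2 /
      ‖((i g : {s : ℂ // riemannZeta s = 0 ∧ 0 < s.re ∧ s.re < 1}) : ℂ)‖ ^ 2)
    rw [e, e2, ← mul_div_assoc]
    have : 0 < 1 / 4 + (g : ℝ) ^ 2 := by positivity
    refine div_le_div_of_nonneg_right ?_ this.le
    have h4 : (0 : ℝ) ≤ mult g := Nat.cast_nonneg _
    nlinarith

open Pool.Agent.Q260.OE in
open Pool.Agent.H681.OE in
/-- **Theorem.** -/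
theorem result :
    -- the sum over the multiple zeros converges
    Summable (fun g : Zero => 2 * (mult g : ℝ) * ((mult g : ℝ) - 1) / (1 / 4 + (g : ℝ) ^ 2)) ∧
    -- the best approximations exist and are unique
    (∀ N : ℕ, ∃! a : ℝ →₀ ℝ, Best N a) ∧
    -- the best approximations: criteria
    (∀ a : ℕ → (ℝ →₀ ℝ), (∀ N, Best N (a N)) →
      List.TFAE [RiemannHypothesis ∧ AllSimple,
        Tendsto (fun N : ℕ => gap (1 / (N : ℝ)) (a N)) atTop (𝓝 0),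
        ∀ ε : ℝ, 0 < ε → ∃ᶠ N : ℕ in atTop, gap (1 / (N : ℝ)) (a N) < ε,
        ∀ u : ℝ, 0 ≤ u → u ≤ 1 → Tendsto (fun N : ℕ => share (1 / (N : ℝ)) (a N) u) atTop (𝓝 u),
        ∃ u : ℝ, 0 < u ∧ u < 1 ∧ ∀ ε : ℝ, 0 < ε → ∃ᶠ N : ℕ in atTop, share (1 / (N : ℝ)) (a N) u < u + ε] ∧
      (RiemannHypothesis → AsympOpt (fun N : ℕ => 1 / (N : ℝ)) a) ∧
      -- the gap always has a limit, which is at least the sum over the multiple zeros of `Z`
      (RiemannHypothesis → Tendsto (fun N : ℕ => gap (1 / (N : ℝ)) (a N)) atTop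
        (𝓝 (∑' g : Zero, 2 * (mult g : ℝ) * ((mult g : ℝ) - 1) / (1 / 4 + (g : ℝ) ^ 2)))) ∧
      (¬ RiemannHypothesis → Tendsto (fun N : ℕ => gap (1 / (N : ℝ)) (a N)) atTop atTop) ∧
      ∀ C : ℝ, C < (∑' g : Zero, 2 * (mult g : ℝ) * ((mult g : ℝ) - 1) / (1 / 4 + (g : ℝ) ^ 2)) →
        ∀ᶠ N : ℕ in atTop, C < gap (1 / (N : ℝ)) (a N)) ∧
    -- under RH, for every asymptotically optimal family
    (RiemannHypothesis → ∀ (lam : ℕ → ℝ) (a : ℕ → (ℝ →₀ ℝ)), AsympOpt lam a →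
      Tendsto (fun j => gap (lam j) (a j)) atTop
        (𝓝 (∑' g : Zero, 2 * (mult g : ℝ) * ((mult g : ℝ) - 1) / (1 / 4 + (g : ℝ) ^ 2))) ∧
      List.TFAE [AllSimple,
        Tendsto (fun j => gap (lam j) (a j)) atTop (𝓝 0),
        ∀ ε : ℝ, 0 < ε → ∃ᶠ j in atTop, gap (lam j) (a j) < ε,
        ∀ u : ℝ, 0 ≤ u → u ≤ 1 → Tendsto (fun j => share (lam j) (a j) u) atTop (𝓝 u),
        ∃ u : ℝ, 0 < u ∧ u < 1 ∧ ∀ ε : ℝ, 0 < ε → ∃ᶠ j in atTop, share (lam j) (a j) u < u + ε] ∧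
      -- windows of ordinates
      (∀ α β : ℝ, α < β → riemannZeta (cl α) ≠ 0 → riemannZeta (cl β) ≠ 0 →
        Tendsto (fun j => wgap (lam j) (a j) α β) atTop
          (𝓝 (∑' g : Zero, if α < (g : ℝ) ∧ (g : ℝ) < β then
            2 * (mult g : ℝ) * ((mult g : ℝ) - 1) / (1 / 4 + (g : ℝ) ^ 2) else 0)) ∧
        ((∀ t : ℝ, α < t → t < β → riemannZeta (cl t) = 0 → deriv riemannZeta (cl t) ≠ 0) ↔
          Tendsto (fun j => wgap (lam j) (a j) α β) atTop (𝓝 0))) ∧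
      -- single zeros
      (∀ g : ℝ, riemannZeta (cl g) = 0 →
        (∀ R : ℝ, 0 < R → Tendsto (fun j => ∫ v in (-R)..R,
          ‖tr (a j) (g + v / Real.log (1 / lam j)) - prof (mult g) v‖ ^ 2) atTop (𝓝 0)) ∧
        ∀ k : ℕ, mult g = k ↔ ∀ R : ℝ, 0 < R → Tendsto (fun j => ∫ v in (-R)..R,
          ‖tr (a j) (g + v / Real.log (1 / lam j)) - prof k v‖ ^ 2) atTop (𝓝 0))) := by
  have hlim : ∀ a : ℕ → (ℝ →₀ ℝ), (∀ N, Best N (a N)) → RiemannHypothesis →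
      Tendsto (fun N : ℕ => gap (1 / (N : ℝ)) (a N)) atTop
        (𝓝 (∑' g : Zero, 2 * (mult g : ℝ) * ((mult g : ℝ) - 1) / (1 / 4 + (g : ℝ) ^ 2))) := by
    intro a ha hRH
    have ho : OptR (fun N : ℕ => 1 / (N : ℝ)) a := best_optR Pool.Agent.Q211.OE.t_NT ha hRH Pool.Agent.H575.BD.up
      Pool.Agent.H575.BD.low Pool.Agent.H575.BD.sum2
    exact gapR_lim t_XW a_COR1 hRH ho
  have htop : ∀ a : ℕ → (ℝ →₀ ℝ), (∀ N, Best N (a N)) → ¬ RiemannHypothesis →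
      Tendsto (fun N : ℕ => gap (1 / (N : ℝ)) (a N)) atTop atTop := by
    intro a ha hno
    obtain ⟨c, hc, h5⟩ := no_gap Pool.Agent.Q211.OE.t_NT t_XW a_NR1 ha hno
    exact tendsto_atTop_mono' atTop h5 (log_top.const_mul_atTop hc)
  refine ⟨summable_S, fun N => exists_bestR Pool.Agent.Q211.OE.t_NT Pool.Agent.Q198.OE.t_BST N,
    fun a ha => ⟨?_, ?_, hlim a ha, htop a ha, fun C hC => ?_⟩, ?_⟩
  · have h := tfae2S Pool.Agent.Q211.OE.t_NT t_XW a_COR1 pos_t a_LEG a_NR1 a_NR2 Pool.Agent.H575.BD.up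
      Pool.Agent.H575.BD.low Pool.Agent.H575.BD.sum2 (a := a) ha
    rw [simp_iff] at h
    exact h
  · intro hRH
    have ho : OptR (fun N : ℕ => 1 / (N : ℝ)) a := best_optR Pool.Agent.Q211.OE.t_NT ha hRH Pool.Agent.H575.BD.up
      Pool.Agent.H575.BD.low Pool.Agent.H575.BD.sum2
    exact ⟨ho.1, ho.2.1, optR_ratio hRH ho⟩
  · by_cases hRH : RiemannHypothesis
    · exact (hlim a ha hRH).eventually_const_lt hC
    · exact (htop a ha hRH).eventually_gt_atTop C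
  · intro hRH lam a ha
    have ho : OptR lam a := optR_of hRH ha.1 ha.2.1 ha.2.2
    refine ⟨gapR_lim t_XW a_COR1 hRH ho, ?_, fun α β hab hα hβ => ⟨win_lim hRH ho hab hα hβ, win_iff hRH ho hab hα hβ⟩,
      fun g hg => ⟨fun R hR => proR_lim hRH ho a_PRO hg hR, fun k => pro_iff hRH ho hg k⟩⟩
    have h := tfae_opt t_XW a_COR1 pos_t a_LEG Pool.Agent.H575.BD.sum2 hRH ho
    rw [simp_iff] at h
    exact h

end Pool.Agent.Results.MP_6bc78b_nt.BestApproximationError
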