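import Pool.Agent.H493.BS.Exp

/-!
# Simple zeros of Hardy's function in Bohr sets, unconditionally

No hypothesis is made on the zeros of zeta. Let `c = 1/2 + cot(1/√2)/√2 ≤ 1.3275` be the
Montgomery-Taylor constant and `κ > 0`. In all intervals `(T, T + H]` with `κ T ≤ H ≤ T`:

* for every almost periodic weight `φ ≥ 0` with mean value `M`, the sum of `φ` over the simple real
  zeros of Hardy's function `Z` is at least `((2 - c) M - o(1)) N(T, T + H)`, and its sum over the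
  ordinates of all distinct nontrivial zeros of zeta (on the critical line or not) is at least
  `((3 - c) M / 2 - o(1)) N(T, T + H)`;
* every open set of a torus along a line, in particular every Bohr set, gets at least `2 - c`
  times its fair share of simple zeros of `Z`; at least `2 - c - o(1) ≥ 0.6725 - o(1)` of the
  nontrivial zeros with ordinate in a given Bohr set lie on the critical line and are simple;
* no frequency `τ ≠ 0` correlates strongly with the simple zeros `γ` of `Z`: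
  `|∑ exp (i τ γ)| ≤ ((c - 1) / π + o(1)) N(T, T + H)`, where `(c - 1) / π ≤ 0.1043`.
-/

open Filter Topology Complex MeasureTheory

namespace Pool.Agent.Results.MP_6bc78b_nt.BohrSetsUnconditional

/-- the phase `exp (i ϑ(t))`, with `ϑ(t) = arg Γ(1/4 + i t / 2) - (t / 2) log π` -/
noncomputable def phase (t : ℝ) : ℂ :=
  Gamma (1 / 4 + I * t / 2) / ‖Gamma (1 / 4 + I * t / 2)‖ * cexp (-(I * (t / 2) * Real.log Real.pi))

/-- Hardy's function `Z(t) = exp (i ϑ(t)) ζ(1/2 + i t)` -/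
noncomputable def Z (t : ℝ) : ℂ := phase t * riemannZeta (1 / 2 + I * t)

/-- the simple real zeros of `Z` in `(T₁, T₂]` -/
def simpleZeros (T₁ T₂ : ℝ) : Set ℝ := {t : ℝ | T₁ < t ∧ t ≤ T₂ ∧ Z t = 0 ∧ deriv Z t ≠ 0}

/-- the nontrivial zeros of zeta with ordinate in `(T₁, T₂]` -/
def zeros (T₁ T₂ : ℝ) : Set ℂ :=
  {s : ℂ | riemannZeta s = 0 ∧ 0 < s.re ∧ s.re < 1 ∧ T₁ < s.im ∧ s.im ≤ T₂}

/-- the sum of `f` over the nontrivial zeros of zeta with ordinate in `(T₁, T₂]`, counted with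
multiplicity -/
noncomputable def wsum (T₁ T₂ : ℝ) (f : ℂ → ℝ) : ℝ :=
  ∑ᶠ s ∈ zeros T₁ T₂, (analyticOrderNatAt riemannZeta s : ℝ) * f s

/-- the number of nontrivial zeros with ordinate in `(T₁, T₂]`, counted with multiplicity -/
noncomputable def N (T₁ T₂ : ℝ) : ℕ := ∑ᶠ s ∈ zeros T₁ T₂, analyticOrderNatAt riemannZeta s

/-- the number of nontrivial zeros with ordinate in `(T₁, T₂]` and in `A`, counted with
multiplicity -/
noncomputable def NA (T₁ T₂ : ℝ) (A : Set ℝ) : ℕ :=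
  ∑ᶠ s ∈ {s : ℂ | s ∈ zeros T₁ T₂ ∧ s.im ∈ A}, analyticOrderNatAt riemannZeta s

/-- the constant `c = 1/2 + cot(1/√2)/√2`, the inverse of the Montgomery-Taylor constant -/
noncomputable def c : ℝ := 1 / 2 + Real.cot (1 / Real.sqrt 2) / Real.sqrt 2

/-- `φ` is (uniformly) almost periodic: it is a uniform limit of trigonometric polynomials
`Re ∑ c_τ exp (i τ t)`, `τ` in a finite set of real numbers -/
def AlmostPeriodic (φ : ℝ → ℝ) : Prop := ∀ ε : ℝ, 0 < ε → ∃ (S : Finset ℝ) (c : ℝ → ℂ),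
  ∀ t : ℝ, |φ t - (∑ τ ∈ S, c τ * cexp (I * τ * t)).re| ≤ ε

/-- `φ` has mean value `M` -/
def HasMean (φ : ℝ → ℝ) (M : ℝ) : Prop :=
  Tendsto (fun X : ℝ => (∫ t in (0 : ℝ)..X, φ t) / X) atTop (𝓝 M)

/-- the point `α t mod 1` of the torus `(ℝ/ℤ)^k` -/
def pt {k : ℕ} (α : Fin k → ℝ) (t : ℝ) : UnitAddTorus (Fin k) :=
  fun j => ((α j * t : ℝ) : UnitAddCircle)

/-- the normalised Haar measure of the torus -/
noncomputable def haar (k : ℕ) : Measure (UnitAddTorus (Fin k)) :=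
  Measure.pi fun _ => AddCircle.haarAddCircle

/-- distance to the nearest integer -/
noncomputable def distInt (x : ℝ) : ℝ := |x - round x|

/-- the Bohr set of all `t` with `‖α_j t - β_j‖ < δ_j` for all `j` -/
def Bohr {k : ℕ} (α β δ : Fin k → ℝ) : Set ℝ := {t : ℝ | ∀ j, distInt (α j * t - β j) < δ j}

lemma gamma_ne (t : ℝ) : Gamma (1 / 4 + I * t / 2) ≠ 0 := by
  apply Gamma_ne_zero_of_re_pos
  simp

lemma gamma_cont : Continuous fun t : ℝ => Gamma (1 / 4 + I * t / 2) := by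
  rw [continuous_iff_continuousAt]
  intro t
  have h1 : ContinuousAt Gamma (1 / 4 + I * t / 2) := by
    refine (differentiableAt_Gamma _ fun m hm => ?_).continuousAt
    have := congrArg Complex.re hm
    simp at this
    have hm0 : (0 : ℝ) ≤ m := Nat.cast_nonneg m
    linarith
  exact ContinuousAt.comp (f := fun t : ℝ => (1 / 4 + I * t / 2 : ℂ)) h1 (by fun_prop)

lemma phase_cont : Continuous phase := by
  unfold phase
  refine Continuous.mul (gamma_cont.div ?_ ?_) (by fun_prop)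
  · exact Complex.continuous_ofReal.comp gamma_cont.norm
  · intro t
    rw [Complex.ofReal_ne_zero]
    exact norm_ne_zero_iff.mpr (gamma_ne t)

lemma phase_ne (t : ℝ) : phase t ≠ 0 := by
  unfold phase
  refine mul_ne_zero (div_ne_zero (gamma_ne t) ?_) (Complex.exp_ne_zero _)
  rw [Complex.ofReal_ne_zero]
  exact norm_ne_zero_iff.mpr (gamma_ne t)

lemma Z_zero_iff (t : ℝ) : Z t = 0 ↔ riemannZeta (1 / 2 + I * t) = 0 := by
  unfold Z
  rw [mul_eq_zero]
  exact ⟨fun h => h.resolve_left (phase_ne t), Or.inr⟩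

lemma zeta_diff (t : ℝ) : DifferentiableAt ℂ riemannZeta (1 / 2 + I * t) := by
  refine differentiableAt_riemannZeta fun h => ?_
  have := congrArg Complex.re h
  norm_num at this

lemma Z_hasDerivAt (t : ℝ) (h : riemannZeta (1 / 2 + I * t) = 0) :
    HasDerivAt Z (phase t * (deriv riemannZeta (1 / 2 + I * t) * I)) t := by
  have hg : HasDerivAt (fun u : ℝ => riemannZeta (1 / 2 + I * u))
      (deriv riemannZeta (1 / 2 + I * t) * I) t := by
    have h1 : HasDerivAt (fun u : ℝ => (1 / 2 + I * u : ℂ)) I t := by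
      have h2 : HasDerivAt (fun u : ℝ => (u : ℂ)) 1 t := Complex.ofRealCLM.hasDerivAt
      simpa using (h2.const_mul I).const_add (1 / 2 : ℂ)
    exact HasDerivAt.comp (h₂ := riemannZeta) t (zeta_diff t).hasDerivAt h1
  rw [hasDerivAt_iff_tendsto_slope] at hg ⊢
  have h3 : Tendsto phase (𝓝[≠] t) (𝓝 (phase t)) :=
    phase_cont.continuousAt.tendsto.mono_left nhdsWithin_le_nhds
  refine (h3.mul hg).congr fun u => ?_
  have hZ : Z t = 0 := (Z_zero_iff t).mpr h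
  rw [slope_def_module, slope_def_module, hZ, h, sub_zero, sub_zero]
  unfold Z
  simp only [Complex.real_smul]
  ring

lemma zeta_analytic {s : ℂ} (hs : s ≠ 1) : AnalyticAt ℂ riemannZeta s := by
  have : DifferentiableOn ℂ riemannZeta ({1}ᶜ : Set ℂ) := fun z hz =>
    (differentiableAt_riemannZeta hz).differentiableWithinAt
  exact this.analyticAt (isOpen_compl_singleton.mem_nhds hs)

lemma half_ne (t : ℝ) : (1 / 2 + I * t : ℂ) ≠ 1 := by
  intro h
  have := congrArg Complex.re h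
  norm_num at this

/-- a zero of `Z` is simple if and only if the corresponding zero of zeta is simple -/
lemma simple_iff {t : ℝ} (h : riemannZeta (1 / 2 + I * t) = 0) :
    deriv Z t ≠ 0 ↔ analyticOrderNatAt riemannZeta (1 / 2 + I * t) = 1 := by
  rw [(Z_hasDerivAt t h).deriv]
  have ha := zeta_analytic (half_ne t)
  have h3 := ha.analyticOrderAt_deriv_add_one
  simp only [h, sub_zero] at h3
  have h4 : deriv riemannZeta (1 / 2 + I * t) ≠ 0 ↔
      analyticOrderAt (deriv riemannZeta) (1 / 2 + I * t) = 0 :=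
    ha.deriv.analyticOrderAt_eq_zero.symm
  have h5 : phase t * (deriv riemannZeta (1 / 2 + I * t) * I) ≠ 0 ↔
      deriv riemannZeta (1 / 2 + I * t) ≠ 0 := by
    constructor
    · intro h6 h7
      apply h6
      rw [h7]
      ring
    · intro h6
      exact mul_ne_zero (phase_ne t) (mul_ne_zero h6 I_ne_zero)
  rw [h5, h4]
  unfold analyticOrderNatAt
  rw [← h3]
  generalize analyticOrderAt (deriv riemannZeta) (1 / 2 + I * t) = x
  cases x with
  | top => simp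
  | coe n =>
    have e : ((n : ℕ∞) + 1).toNat = n + 1 := by
      rw [show ((n : ℕ∞) + 1) = ((n + 1 : ℕ) : ℕ∞) by push_cast; rfl, ENat.toNat_natCast]
    rw [e]
    constructor
    · intro h
      have : n = 0 := by exact_mod_cast h
      omega
    · intro h
      have : n = 0 := by omega
      rw [this]; rfl

lemma zeros_eq (T₁ T₂ : ℝ) : zeros T₁ T₂ = H370.zset riemannZeta T₁ T₂ := by
  ext s
  simp only [zeros, H370.zset, Set.mem_ofPred_eq]
  tauto

/-- the sets of nontrivial zeros that are counted are finite -/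
theorem zeros_finite (T₁ T₂ : ℝ) (h : 0 < T₁) : (zeros T₁ T₂).Finite := by
  rw [zeros_eq]
  exact H370.zset_finite' H370.good_zeta T₁ T₂ h

lemma N_eq (T₁ T₂ : ℝ) : N T₁ T₂ = H370.NN riemannZeta T₁ T₂ := by
  unfold N H370.NN H370.mult
  rw [zeros_eq]

/-- the sets of simple zeros of `Z` that are counted are finite -/
theorem simpleZeros_finite (T₁ T₂ : ℝ) (h : 0 < T₁) : (simpleZeros T₁ T₂).Finite := by
  have hinj : Function.Injective fun t : ℝ => (1 / 2 + I * t : ℂ) := by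
    intro a b hab
    have := congrArg Complex.im hab
    simpa using this
  refine Set.Finite.of_finite_image ((zeros_finite T₁ T₂ h).subset ?_) hinj.injOn
  rintro s ⟨t, ⟨h1, h2, h3, h4⟩, rfl⟩
  refine ⟨(Z_zero_iff t).mp h3, ?_, ?_, ?_, ?_⟩ <;> simp <;> first | assumption | norm_num

open Classical in
/-- sums over the simple zeros of `Z` -/
lemma simple_sum {M : Type*} [AddCommMonoid M] {T₁ T₂ : ℝ} (h : 1 ≤ T₁) (f : ℝ → M) :
    ∑ᶠ t ∈ simpleZeros T₁ T₂, f t =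
      ∑ s ∈ (H370.Zf riemannZeta T₁ T₂).filter fun s => s.re = 1 / 2 ∧ H370.mult riemannZeta s = 1,
        f s.im := by
  set W := (H370.Zf riemannZeta T₁ T₂).filter fun s => s.re = 1 / 2 ∧
    H370.mult riemannZeta s = 1 with hW
  have hinj : Set.InjOn (fun s : ℂ => s.im) (W : Set ℂ) := by
    intro s hs s' hs' h6
    rw [Finset.mem_coe, hW, Finset.mem_filter] at hs hs'
    exact Complex.ext (hs.2.1.trans hs'.2.1.symm) h6
  have himage : simpleZeros T₁ T₂ = (fun s : ℂ => s.im) '' (W : Set ℂ) := by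
    ext t
    constructor
    · rintro ⟨h1, h2, h3, h4⟩
      refine ⟨1 / 2 + I * t, ?_, by simp⟩
      rw [Finset.mem_coe, hW, Finset.mem_filter, H370.mem_Zf H370.good_zeta h]
      have h5 := (Z_zero_iff t).mp h3
      refine ⟨⟨?_, ?_, ?_, ?_, h5⟩, by simp, (simple_iff h5).1 h4⟩ <;> simp <;>
        first | assumption | norm_num
    · rintro ⟨s, hs, rfl⟩
      rw [Finset.mem_coe, hW, Finset.mem_filter, H370.mem_Zf H370.good_zeta h] at hs
      have e : (1 / 2 + I * s.im : ℂ) = s := by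
        apply Complex.ext
        · simp [hs.2.1]
        · simp
      refine ⟨hs.1.2.2.1, hs.1.2.2.2.1, ?_, ?_⟩
      · rw [Z_zero_iff, e]; exact hs.1.2.2.2.2
      · rw [simple_iff (by rw [e]; exact hs.1.2.2.2.2), e]; exact hs.2.2
  rw [himage, finsum_mem_image hinj, finsum_mem_coe_finset]

lemma zeros_sum {M : Type*} [AddCommMonoid M] {T₁ T₂ : ℝ} (h : 1 ≤ T₁) (f : ℂ → M) :
    ∑ᶠ s ∈ zeros T₁ T₂, f s = ∑ s ∈ H370.Zf riemannZeta T₁ T₂, f s := by
  rw [zeros_eq, H370.finsum_Zf H370.good_zeta h]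

lemma wsum_eq {T₁ T₂ : ℝ} (h : 1 ≤ T₁) (f : ℂ → ℝ) :
    wsum T₁ T₂ f = Pool.Agent.H493.BS.Sm riemannZeta T₁ T₂ f := zeros_sum h _

theorem weights {φ : ℝ → ℝ} {M : ℝ} (hφ : TH803TW.APm φ M) (hφ0 : ∀ t, 0 ≤ φ t) {κ ε : ℝ}
    (hκ : 0 < κ) (hε : 0 < ε) :
    ∃ T₀ : ℝ, ∀ T : ℝ, T₀ ≤ T → ∀ H : ℝ, κ * T ≤ H → H ≤ T →
      |wsum T (T + H) (fun s => φ s.im) - M * N T (T + H)| ≤ ε * N T (T + H) ∧
      ((2 - c) * M - ε) * (N T (T + H) : ℝ) ≤ ∑ᶠ t ∈ simpleZeros T (T + H), φ t ∧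
      ((3 - c) / 2 * M - ε) * (N T (T + H) : ℝ) ≤ ∑ᶠ s ∈ zeros T (T + H), φ s.im := by
  obtain ⟨T1, hT1, h1⟩ := Pool.Agent.H493.BS.weights hφ hφ0 hκ hε
  obtain ⟨T2, hT2, h2⟩ := Pool.Agent.H493.BS.mean_full hφ hκ hε
  refine ⟨max T1 T2, fun T hT H hH1 hH2 => ?_⟩
  have hTT1 : T1 ≤ T := (le_max_left _ _).trans hT
  have hTT2 : T2 ≤ T := (le_max_right _ _).trans hT
  have hT1' : 1 ≤ T := by linarith
  obtain ⟨a1, a2⟩ := h1 T hTT1 H hH1 hH2
  have a3 := h2 T hTT2 H hH1 hH2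
  rw [wsum_eq hT1', N_eq, simple_sum hT1', zeros_sum hT1']
  exact ⟨a3, a1, a2⟩

lemma mean_nonneg {φ : ℝ → ℝ} {M : ℝ} (h0 : ∀ t, 0 ≤ φ t) (h : HasMean φ M) : 0 ≤ M := by
  refine ge_of_tendsto h ?_
  filter_upwards [eventually_gt_atTop (0 : ℝ)] with X hX
  exact div_nonneg (intervalIntegral.integral_nonneg hX.le fun t _ => h0 t) hX.le

lemma count_ge {k : ℕ} {α : Fin k → ℝ} {U : Set (UnitAddTorus (Fin k))} {ι : Type*} {A : Set ι}
    (hA : A.Finite) (im : ι → ℝ) {f : C(UnitAddTorus (Fin k), ℝ)} (hf1 : ∀ x, f x ≤ 1)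
    (hfU : ∀ x, x ∉ U → f x = 0) :
    ∑ᶠ t ∈ A, f (pt α (im t)) ≤ ({t ∈ A | pt α (im t) ∈ U}.ncard : ℝ) := by
  classical
  rw [finsum_mem_eq_finite_toFinset_sum _ hA]
  have h1 : {t ∈ A | pt α (im t) ∈ U} =
      ((hA.toFinset.filter fun t => pt α (im t) ∈ U : Finset ι) : Set ι) := by
    ext t
    simp
  rw [h1, Set.ncard_coe_finset, Finset.card_filter, Nat.cast_sum]
  refine Finset.sum_le_sum fun t _ => ?_
  split_ifs with h
  · simpa using hf1 _
  · rw [hfU _ h]; simp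

lemma c_le : c ≤ 1.3275 := by
  have h := Pool.Agent.H493.BS.cc_one_le
  exact h

lemma arith {k M M' ε N x : ℝ} (hk0 : 0 ≤ k) (hk3 : k ≤ 3) (hN : 0 ≤ N)
    (h1 : (k * M' - ε / 2) * N ≤ x) (h2 : M - ε / 6 ≤ M') (hε : 0 < ε) :
    (k * M - ε) * N ≤ x := by
  refine le_trans ?_ h1
  apply mul_le_mul_of_nonneg_right _ hN
  have h3 : k * M - k * (ε / 6) ≤ k * M' := by
    have := mul_le_mul_of_nonneg_left h2 hk0
    linarith
  have h4 : k * (ε / 6) ≤ ε / 2 := by nlinarith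
  linarith

lemma c_nonneg : 0 ≤ c := by
  have hc := H228SI.constS 1 one_pos le_rfl
  have hs2 : 0 < Real.sqrt 2 := Real.sqrt_pos.2 (by norm_num)
  have hC := H793SI.convS (Real.sqrt 2 * 1) (by positivity) (by rw [mul_one])
  have e : c = H295SI.cc 1 := rfl
  rw [e, ← hc]
  unfold H295SI.cR
  have : 0 ≤ ∫ α in (0 : ℝ)..1, α * H295SI.RS (Real.sqrt 2 * 1) α :=
    intervalIntegral.integral_nonneg (by norm_num) fun u hu => mul_nonneg hu.1 (hC.nonneg u)
  have := hC.nonneg 0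
  positivity

theorem opens {k : ℕ} {α : Fin k → ℝ}
    (hα : ∀ n : Fin k → ℤ, ∑ j, (n j : ℝ) * α j = 0 → n = 0) {U : Set (UnitAddTorus (Fin k))}
    (hU : IsOpen U) {κ ε : ℝ} (hκ : 0 < κ) (hε : 0 < ε) :
    ∃ T₀ : ℝ, ∀ T : ℝ, T₀ ≤ T → ∀ H : ℝ, κ * T ≤ H → H ≤ T →
      ((2 - c) * (haar k U).toReal - ε) * (N T (T + H) : ℝ) ≤
        ({t ∈ simpleZeros T (T + H) | pt α t ∈ U}.ncard : ℝ) ∧
      ((3 - c) / 2 * (haar k U).toReal - ε) * (N T (T + H) : ℝ) ≤
        ({s ∈ zeros T (T + H) | pt α s.im ∈ U}.ncard : ℝ) ∧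
      ((haar k U).toReal - ε) * (N T (T + H) : ℝ) ≤ NA T (T + H) {t : ℝ | pt α t ∈ U} := by
  classical
  obtain ⟨f, hf0, hf1, hfU, hfM⟩ := TH803TW.torus_lower hU (ε := ε / 6) (by positivity)
  have hAPm := TH803TW.APm_torus hα f
  obtain ⟨T₀, hT₀⟩ := weights hAPm (fun t => hf0 _) hκ (ε := ε / 2) (by positivity)
  refine ⟨max T₀ 1, fun T hT H hH1 hH2 => ?_⟩
  have hT1 : 1 ≤ T := (le_max_right _ _).trans hT
  obtain ⟨a0, a1, a2⟩ := hT₀ T ((le_max_left _ _).trans hT) H hH1 hH2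
  have hM0 : 0 ≤ (haar k U).toReal := ENNReal.toReal_nonneg
  have hN0 : (0 : ℝ) ≤ N T (T + H) := Nat.cast_nonneg _
  have c1 := count_ge (α := α) (simpleZeros_finite T (T + H) (by linarith)) (fun t => t) hf1 hfU
  have c2 := count_ge (α := α) (zeros_finite T (T + H) (by linarith)) (fun s => s.im) hf1 hfU
  have hc1 := c_le
  have hc0 := c_nonneg
  refine ⟨?_, ?_, ?_⟩
  · exact arith (by linarith) (by linarith) hN0 (a1.trans c1) hfM hε
  · exact arith (by linarith) (by linarith) hN0 (a2.trans c2) hfM hε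
  · have h3 : wsum T (T + H) (fun s => f (TH803TW.torusPt α s.im)) ≤
        NA T (T + H) {t : ℝ | pt α t ∈ U} := by
      rw [wsum_eq hT1]
      unfold NA Pool.Agent.H493.BS.Sm
      have e1 : {s : ℂ | s ∈ zeros T (T + H) ∧ s.im ∈ {t : ℝ | pt α t ∈ U}} =
          (((H370.Zf riemannZeta T (T + H)).filter fun s => pt α s.im ∈ U : Finset ℂ) : Set ℂ) := by
        ext s
        simp only [Set.mem_ofPred_eq, Finset.coe_filter, H370.mem_Zf H370.good_zeta hT1, zeros_eq]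
      rw [e1, finsum_mem_coe_finset, Finset.sum_filter]
      push_cast
      refine Finset.sum_le_sum fun s _ => ?_
      have hm : (0 : ℝ) ≤ H370.mult riemannZeta s := Nat.cast_nonneg _
      split_ifs with h
      · have := hf1 (TH803TW.torusPt α s.im)
        calc (H370.mult riemannZeta s : ℝ) * f (TH803TW.torusPt α s.im) ≤
            (H370.mult riemannZeta s : ℝ) * 1 := by gcongr
          _ = _ := mul_one _
      · have : f (TH803TW.torusPt α s.im) = 0 := hfU _ h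
        rw [this, mul_zero]
    have h4 := (abs_le.1 a0).1
    have h5 : ((haar k U).toReal - ε / 6) * (N T (T + H) : ℝ) ≤
        (∫ x, f x ∂TH803TW.haarT k) * N T (T + H) := by
      apply mul_le_mul_of_nonneg_right hfM hN0
    have h6 : 0 ≤ ε * (N T (T + H) : ℝ) := by positivity
    linarith

lemma pt_box {k : ℕ} (α β δ : Fin k → ℝ) (t : ℝ) :
    pt α t ∈ (Set.univ.pi fun j => Metric.ball ((β j : ℝ) : UnitAddCircle) (δ j)) ↔
      t ∈ Bohr α β δ := by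
  unfold pt Bohr distInt
  simp only [Set.mem_univ_pi, Metric.mem_ball, dist_eq_norm, Set.mem_ofPred_eq]
  refine forall_congr' fun j => ?_
  rw [← UnitAddCircle.norm_eq (x := α j * t - β j)]
  rfl

lemma pt_cbox {k : ℕ} (α β δ : Fin k → ℝ) (t : ℝ)
    (h : pt α t ∉ (Set.univ.pi fun j => Metric.closedBall ((β j : ℝ) : UnitAddCircle) (δ j))) :
    t ∉ Bohr α β δ := by
  intro h1
  rw [← pt_box] at h1
  apply h
  intro j hj
  exact Metric.ball_subset_closedBall (h1 j hj)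

/-- the volume of a closed box -/
lemma cbox_vol {k : ℕ} (β : Fin k → UnitAddCircle) {δ : Fin k → ℝ} (h0 : ∀ j, 0 < δ j)
    (h1 : ∀ j, δ j ≤ 1 / 2) :
    (haar k (Set.univ.pi fun j => Metric.closedBall (β j) (δ j))).toReal = ∏ j, (2 * δ j) := by
  unfold haar
  rw [Measure.pi_pi, ENNReal.toReal_prod]
  refine Finset.prod_congr rfl fun j _ => ?_
  have h5 := AddCircle.volume_closedBall (T := (1 : ℝ)) (x := β j) (δ j)
  rw [AddCircle.volume_eq_smul_haarAddCircle, ENNReal.ofReal_one, one_smul,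
    min_eq_right (by linarith [h1 j])] at h5
  rw [h5, ENNReal.toReal_ofReal (by have := h0 j; positivity)]

/-- the number of all zeros with ordinate in a Bohr set -/
theorem NA_upper {k : ℕ} {α : Fin k → ℝ}
    (hα : ∀ n : Fin k → ℤ, ∑ j, (n j : ℝ) * α j = 0 → n = 0) (β δ : Fin k → ℝ)
    (hδ : ∀ j, 0 < δ j ∧ δ j ≤ 1 / 2) {κ ε : ℝ} (hκ : 0 < κ) (hε : 0 < ε) :
    ∃ T₀ : ℝ, ∀ T : ℝ, T₀ ≤ T → ∀ H : ℝ, κ * T ≤ H → H ≤ T →
      (NA T (T + H) (Bohr α β δ) : ℝ) ≤ (∏ j, (2 * δ j) + ε) * (N T (T + H) : ℝ) := by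
  classical
  set K : Set (UnitAddTorus (Fin k)) :=
    Set.univ.pi fun j => Metric.closedBall ((β j : ℝ) : UnitAddCircle) (δ j) with hK
  have hKc : IsClosed K := isClosed_set_pi fun _ _ => Metric.isClosed_closedBall
  obtain ⟨T₀, hT₀⟩ := opens hα hKc.isOpen_compl hκ hε
  have hv := cbox_vol (fun j => ((β j : ℝ) : UnitAddCircle)) (fun j => (hδ j).1) (fun j => (hδ j).2)
  have hprob : IsProbabilityMeasure (haar k) := by unfold haar; infer_instance
  have hcompl : (haar k Kᶜ).toReal = 1 - ∏ j, (2 * δ j) := by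
    rw [measure_compl hKc.measurableSet (measure_ne_top _ _), measure_univ,
      ENNReal.toReal_sub_of_le prob_le_one ENNReal.one_ne_top, ENNReal.toReal_one, hK, hv]
  refine ⟨max T₀ 1, fun T hT H hH1 hH2 => ?_⟩
  have hT1 : 1 ≤ T := (le_max_right _ _).trans hT
  obtain ⟨-, -, h3⟩ := hT₀ T ((le_max_left _ _).trans hT) H hH1 hH2
  rw [hcompl] at h3
  have h4 : NA T (T + H) (Bohr α β δ) + NA T (T + H) {t : ℝ | pt α t ∈ Kᶜ} ≤ N T (T + H) := by
    have e1 : {s : ℂ | s ∈ zeros T (T + H) ∧ s.im ∈ Bohr α β δ} =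
        (((H370.Zf riemannZeta T (T + H)).filter fun s => s.im ∈ Bohr α β δ : Finset ℂ) : Set ℂ) := by
      ext s
      simp only [Set.mem_ofPred_eq, Finset.coe_filter, H370.mem_Zf H370.good_zeta hT1, zeros_eq]
    have e2 : {s : ℂ | s ∈ zeros T (T + H) ∧ s.im ∈ {t : ℝ | pt α t ∈ Kᶜ}} =
        (((H370.Zf riemannZeta T (T + H)).filter fun s => pt α s.im ∈ Kᶜ : Finset ℂ) : Set ℂ) := by
      ext s
      simp only [Set.mem_ofPred_eq, Finset.coe_filter, H370.mem_Zf H370.good_zeta hT1, zeros_eq]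
    unfold NA N
    rw [e1, e2, zeros_sum hT1, finsum_mem_coe_finset, finsum_mem_coe_finset, Finset.sum_filter,
      Finset.sum_filter, ← Finset.sum_add_distrib]
    refine Finset.sum_le_sum fun s _ => ?_
    by_cases h5 : pt α s.im ∈ Kᶜ
    · have h6 : s.im ∉ Bohr α β δ := pt_cbox α β δ s.im h5
      rw [if_neg h6, if_pos h5, zero_add]
    · rw [if_neg h5, add_zero]
      split_ifs
      · exact le_rfl
      · exact Nat.zero_le _
  have h5 : (NA T (T + H) (Bohr α β δ) : ℝ) + NA T (T + H) {t : ℝ | pt α t ∈ Kᶜ} ≤ N T (T + H) := by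
    exact_mod_cast h4
  linarith

/-- **Bohr sets: literal proportions** -/
theorem boxes {k : ℕ} {α : Fin k → ℝ}
    (hα : ∀ n : Fin k → ℤ, ∑ j, (n j : ℝ) * α j = 0 → n = 0) (β δ : Fin k → ℝ)
    (hδ : ∀ j, 0 < δ j ∧ δ j ≤ 1 / 2) {κ ε : ℝ} (hκ : 0 < κ) (hε : 0 < ε) :
    ∃ T₀ : ℝ, ∀ T : ℝ, T₀ ≤ T → ∀ H : ℝ, κ * T ≤ H → H ≤ T →
      |(NA T (T + H) (Bohr α β δ) : ℝ) - (∏ j, (2 * δ j)) * N T (T + H)| ≤ ε * N T (T + H) ∧
      (2 - c - ε) * (NA T (T + H) (Bohr α β δ) : ℝ) ≤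
        ({t ∈ simpleZeros T (T + H) | t ∈ Bohr α β δ}.ncard : ℝ) ∧
      ((3 - c) / 2 - ε) * (NA T (T + H) (Bohr α β δ) : ℝ) ≤
        ({s ∈ zeros T (T + H) | s.im ∈ Bohr α β δ}.ncard : ℝ) := by
  set P : ℝ := ∏ j, (2 * δ j) with hP
  have hP0 : 0 < P := Finset.prod_pos fun j _ => by
    have := (hδ j).1
    positivity
  set ε' : ℝ := min ε (ε * P / 4) with hε'
  have hε'0 : 0 < ε' := lt_min hε (by positivity)
  have hε'1 : ε' ≤ ε := min_le_left _ _
  have hε'2 : ε' ≤ ε * P / 4 := min_le_right _ _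
  obtain ⟨T1, h1⟩ := opens hα (TH803TW.box_open (fun j => ((β j : ℝ) : UnitAddCircle)) δ) hκ hε'0
  obtain ⟨T2, h2⟩ := NA_upper hα β δ hδ hκ hε'0
  have hv := TH803TW.box_vol (fun j => ((β j : ℝ) : UnitAddCircle)) (fun j => (hδ j).1)
    (fun j => (hδ j).2)
  have hv' : P ≤ (haar k (Set.univ.pi fun j =>
    Metric.ball ((β j : ℝ) : UnitAddCircle) (δ j))).toReal := hv
  refine ⟨max T1 T2, fun T hT H hH1 hH2 => ?_⟩
  obtain ⟨a1, a2, a3⟩ := h1 T ((le_max_left _ _).trans hT) H hH1 hH2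
  have a4 := h2 T ((le_max_right _ _).trans hT) H hH1 hH2
  simp only [pt_box] at a1 a2 a3
  have e0 : {t : ℝ | t ∈ Bohr α β δ} = Bohr α β δ := rfl
  rw [e0] at a3
  set n : ℝ := (N T (T + H) : ℝ) with hn
  have hN0 : 0 ≤ n := Nat.cast_nonneg _
  set x : ℝ := (NA T (T + H) (Bohr α β δ) : ℝ) with hx
  have hx0 : 0 ≤ x := Nat.cast_nonneg _
  set V : ℝ := (haar k (Set.univ.pi fun j =>
    Metric.ball ((β j : ℝ) : UnitAddCircle) (δ j))).toReal with hV
  have hc1 := c_le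
  have hc0 := c_nonneg
  have hPn : 0 ≤ P * n := by positivity
  have g1 : P * n ≤ V * n := by gcongr
  have g2 : ε' * n ≤ ε * n := by gcongr
  have g3 : ε' * n ≤ ε * P / 4 * n := by gcongr
  -- the literal proportions
  have key : ∀ q y : ℝ, 0 ≤ q → q ≤ 2 → 0 ≤ y → (q * V - ε') * n ≤ y → (q - ε) * x ≤ y := by
    intro q y hq0 hq1 hy h
    rcases le_or_gt (q - ε) 0 with h5 | h5
    · exact (mul_nonpos_of_nonpos_of_nonneg h5 hx0).trans hy
    · have h6 : (q - ε) * x ≤ (q - ε) * ((P + ε') * n) := mul_le_mul_of_nonneg_left a4 h5.le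
      have h7 : q * (P * n) ≤ q * (V * n) := by gcongr
      have h8 : (q - ε) * (ε' * n) ≤ 2 * (ε' * n) :=
        mul_le_mul_of_nonneg_right (by linarith) (by positivity)
      nlinarith
  refine ⟨?_, ?_, ?_⟩
  · rw [abs_le]
    constructor
    · linarith
    · linarith
  · exact key _ _ (by linarith) (by linarith) (Nat.cast_nonneg _) a1
  · exact key _ _ (by linarith) (by linarith) (Nat.cast_nonneg _) a2

theorem exps {τ : ℝ} (hτ : τ ≠ 0) {κ ε : ℝ} (hκ : 0 < κ) (hε : 0 < ε) :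
    ∃ T₀ : ℝ, ∀ T : ℝ, T₀ ≤ T → ∀ H : ℝ, κ * T ≤ H → H ≤ T →
      ‖∑ᶠ t ∈ simpleZeros T (T + H), cexp (I * τ * t)‖ ≤
        ((c - 1) / Real.pi + ε) * N T (T + H) := by
  obtain ⟨T1, hT1, h1⟩ := Pool.Agent.H493.BS.exp_bound hτ hκ hε
  refine ⟨T1, fun T hT H hH1 hH2 => ?_⟩
  rw [simple_sum (by linarith : (1 : ℝ) ≤ T), N_eq]
  exact h1 T hT H hH1 hH2

/-- **simple zeros of Hardy's function in Bohr sets, unconditionally** -/
theorem result :
    -- almost periodic weights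
    (∀ (φ : ℝ → ℝ) (M : ℝ), AlmostPeriodic φ → (∀ t, 0 ≤ φ t) → HasMean φ M →
      ∀ κ ε : ℝ, 0 < κ → 0 < ε →
      ∃ T₀ : ℝ, ∀ T : ℝ, T₀ ≤ T → ∀ H : ℝ, κ * T ≤ H → H ≤ T →
        |wsum T (T + H) (fun s => φ s.im) - M * N T (T + H)| ≤ ε * N T (T + H) ∧
        ((2 - c) * M - ε) * (N T (T + H) : ℝ) ≤ ∑ᶠ t ∈ simpleZeros T (T + H), φ t ∧
        ((3 - c) / 2 * M - ε) * (N T (T + H) : ℝ) ≤ ∑ᶠ s ∈ zeros T (T + H), φ s.im) ∧
    -- open sets of tori
    (∀ (k : ℕ) (α : Fin k → ℝ), (∀ n : Fin k → ℤ, ∑ j, (n j : ℝ) * α j = 0 → n = 0) →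
      ∀ U : Set (UnitAddTorus (Fin k)), IsOpen U → ∀ κ ε : ℝ, 0 < κ → 0 < ε →
      ∃ T₀ : ℝ, ∀ T : ℝ, T₀ ≤ T → ∀ H : ℝ, κ * T ≤ H → H ≤ T →
        ((2 - c) * (haar k U).toReal - ε) * (N T (T + H) : ℝ) ≤
          ({t ∈ simpleZeros T (T + H) | pt α t ∈ U}.ncard : ℝ) ∧
        ((3 - c) / 2 * (haar k U).toReal - ε) * (N T (T + H) : ℝ) ≤
          ({s ∈ zeros T (T + H) | pt α s.im ∈ U}.ncard : ℝ)) ∧
    -- Bohr sets
    (∀ (k : ℕ) (α : Fin k → ℝ), (∀ n : Fin k → ℤ, ∑ j, (n j : ℝ) * α j = 0 → n = 0) →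
      ∀ β δ : Fin k → ℝ, (∀ j, 0 < δ j ∧ δ j ≤ 1 / 2) → ∀ κ ε : ℝ, 0 < κ → 0 < ε →
      ∃ T₀ : ℝ, ∀ T : ℝ, T₀ ≤ T → ∀ H : ℝ, κ * T ≤ H → H ≤ T →
        |(NA T (T + H) (Bohr α β δ) : ℝ) - (∏ j, (2 * δ j)) * N T (T + H)| ≤ ε * N T (T + H) ∧
        (2 - c - ε) * (NA T (T + H) (Bohr α β δ) : ℝ) ≤
          ({t ∈ simpleZeros T (T + H) | t ∈ Bohr α β δ}.ncard : ℝ) ∧
        ((3 - c) / 2 - ε) * (NA T (T + H) (Bohr α β δ) : ℝ) ≤
          ({s ∈ zeros T (T + H) | s.im ∈ Bohr α β δ}.ncard : ℝ)) ∧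
    -- exponential sums over the simple zeros
    (∀ τ : ℝ, τ ≠ 0 → ∀ κ ε : ℝ, 0 < κ → 0 < ε →
      ∃ T₀ : ℝ, ∀ T : ℝ, T₀ ≤ T → ∀ H : ℝ, κ * T ≤ H → H ≤ T →
        ‖∑ᶠ t ∈ simpleZeros T (T + H), cexp (I * τ * t)‖ ≤
          ((c - 1) / Real.pi + ε) * N T (T + H)) ∧
    -- the constant
    c ≤ 1.3275 :=
  ⟨fun _ _ hφ hφ0 hM _ _ hκ hε => weights (TH803TW.APm_of_mean hφ hM) hφ0 hκ hε,
    fun _ _ hα _ hU _ _ hκ hε => by
      obtain ⟨T₀, h⟩ := opens hα hU hκ hε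
      exact ⟨T₀, fun T hT H hH1 hH2 => ⟨(h T hT H hH1 hH2).1, (h T hT H hH1 hH2).2.1⟩⟩,
    fun _ _ hα β δ hδ _ _ hκ hε => boxes hα β δ hδ hκ hε,
    fun _ hτ _ _ hκ hε => exps hτ hκ hε, c_le⟩

end Pool.Agent.Results.MP_6bc78b_nt.BohrSetsUnconditional
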