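import Pool.Agent.H510.EW.SetsW

/-!
# The simple zeros of Hardy's function near arbitrary sets of heights

The simple zeros of `Z` are the `γ` with `ζ(1/2 + iγ) = 0` and `ζ'(1/2 + iγ) ≠ 0`. No hypothesis.

Let `S` be any measurable set of heights in `[T, 2T]`, of measure `s T`. The windows of `G` mean distances around the points of `S`
contain on average at least `(p(s) / s) 2 G` simple zeros (the mean number of all zeros in a window is `2 G`), and at least `p(s) N`
simple zeros are at distance at most `G` mean distances from `S`, where `N ~ (T / 2 π) log T` is the number of all zeros in `(T, 2T]`.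
Here `p(1) ≥ 0.672`, `p(1/2) ≥ 0.266`, `p(1/4) ≥ 0.08`, `p(1/10) ≥ 0.0078`, and `p(s) > 0` for `s ≥ 0.0623`. So all but `6.23` per cent
of the windows contain a positive proportion of simple zeros, `88.6` per cent at least a tenth, `74.1` per cent at least a third, `55.6`
per cent at least one half of the mean number of zeros; any sixteen shifted windows do so simultaneously for a positive proportion of the
heights, and every pattern of sixteen points is realised, up to boundedly many mean distances, by a positive proportion of the simple zeros.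
-/

set_option autoImplicit false

open Complex Filter Topology MeasureTheory

namespace Pool.Agent.Results.MP_6bc78b_nt.SimpleZerosNearSets

/-- `1/2 + iγ` is a simple zero of zeta (that is, `γ` is a simple zero of Hardy's function `Z`) at distance at least `d` from
every other nontrivial zero of zeta -/
def IsSimple (d γ : ℝ) : Prop :=
  riemannZeta (1 / 2 + γ * I) = 0 ∧ deriv riemannZeta (1 / 2 + γ * I) ≠ 0 ∧
    ∀ ρ : ℂ, riemannZeta ρ = 0 → 0 < ρ.re → ρ.re < 1 → ρ ≠ 1 / 2 + γ * I → d ≤ ‖ρ - (1 / 2 + γ * I)‖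

/-- the number of these simple zeros `γ` with `|γ - t| ≤ r` -/
noncomputable def count (d r t : ℝ) : ℕ := {γ : ℝ | |γ - t| ≤ r ∧ IsSimple d γ}.ncard

/-- the number of all zeros in `(T, 2T]` is asymptotic to `N T` -/
noncomputable def N (T : ℝ) : ℝ := T / (2 * Real.pi) * Real.log T

/-- `G` times the mean distance of the zeros at the height `T` -/
noncomputable def gap (G T : ℝ) : ℝ := G * (2 * Real.pi / Real.log T)

/-- the lower bound for sets of density `s` -/
noncomputable def p (s : ℝ) : ℝ := max (max (max (max (0.82305 * s - 0.15091) (0.78986 * s - 0.12869))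
  (0.65779 * s - 0.08398)) (0.26644 * s - 0.01884)) (0.14834 * s - 0.00924)

theorem result :
    -- the values of `p`
    (0.672 ≤ p 1 ∧ 0.532 * (1 / 2) ≤ p (1 / 2) ∧ 0.321 * (1 / 4) ≤ p (1 / 4) ∧ 0.078 * (1 / 10) ≤ p (1 / 10) ∧
      ∀ s : ℝ, 0.0623 ≤ s → 0 < p s) ∧
    (∃ d G₀ : ℝ, 0 < d ∧ 0 < G₀ ∧ ∀ G : ℝ, G₀ ≤ G → ∃ T₀ : ℝ, ∀ T : ℝ, T₀ ≤ T →
      (∀ t : ℝ, T / 2 ≤ t → {γ : ℝ | |γ - t| ≤ 2 * gap G T ∧ IsSimple (d / Real.log T) γ}.Finite) ∧
      -- (1) simple zeros near an arbitrary set `S` of heights: their mean number in the windows, and their number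
      (∀ S : Set ℝ, MeasurableSet S → S ⊆ Set.Icc T (2 * T) →
        IntegrableOn (fun t : ℝ => (count (d / Real.log T) (gap G T) t : ℝ)) S ∧
        p (volume.real S / T) * T * (2 * G) ≤ ∫ t in S, (count (d / Real.log T) (gap G T) t : ℝ) ∧
        {γ : ℝ | IsSimple (d / Real.log T) γ ∧ ∃ t ∈ S, |γ - t| ≤ gap G T}.Finite ∧
        p (volume.real S / T) * N T ≤
          (({γ : ℝ | IsSimple (d / Real.log T) γ ∧ ∃ t ∈ S, |γ - t| ≤ gap G T}.ncard : ℕ) : ℝ)) ∧
      -- (2) the distribution of the number of simple zeros in the windows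
      (∀ x ∈ ({(1 / 50000, 0.0623), (1 / 10, 0.1134), (1 / 4, 0.206), (1 / 3, 0.259), (1 / 2, 0.444)} : Set (ℝ × ℝ)),
        volume.real {t : ℝ | t ∈ Set.Icc T (2 * T) ∧ (count (d / Real.log T) (gap G T) t : ℝ) < x.1 * (2 * G)} ≤
          x.2 * T) ∧
      -- (3) many shifted windows at once
      (∀ (m : ℕ) (a : Fin m → ℝ), (∀ i, |a i| ≤ T / 20000) → (1 - 0.0624 * m) * T ≤
        volume.real {t : ℝ | t ∈ Set.Icc T (2 * T) ∧ ∀ i,
          1 / 50000 * (2 * G) ≤ (count (d / Real.log T) (gap G T) (t + a i) : ℝ)}) ∧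
      -- (4) patterns of sixteen simple zeros
      (∀ a : Fin 15 → ℝ, (∀ i, |a i| ≤ T / 20000) → 0.0008 / G * N T ≤
        (({γ : ℝ | IsSimple (d / Real.log T) γ ∧ T - 1 ≤ γ ∧ γ ≤ 2 * T + 1 ∧ ∀ i,
          1 / 50000 * (2 * G) ≤ (count (d / Real.log T) (2 * gap G T) (γ + a i) : ℝ)}.ncard : ℕ) : ℝ))) := by
  refine ⟨⟨?_, ?_, ?_, ?_, ?_⟩, ?_⟩
  · exact le_max_of_le_left (le_max_of_le_left (le_max_of_le_left (le_max_of_le_left (by norm_num))))
  · exact le_max_of_le_left (le_max_of_le_left (le_max_of_le_left (le_max_of_le_right (by norm_num))))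
  · exact le_max_of_le_left (le_max_of_le_left (le_max_of_le_right (by norm_num)))
  · exact le_max_of_le_left (le_max_of_le_right (by norm_num))
  · intro s hs
    refine lt_max_of_lt_right ?_
    norm_num at hs ⊢
    linarith
  · obtain ⟨d, G₀, hd, hG₀, h⟩ := Pool.Agent.H510.EW.togetherW
    refine ⟨d, G₀, hd, hG₀, fun G hG => ?_⟩
    obtain ⟨T₀, hT₀⟩ := h G hG
    refine ⟨max T₀ 1, fun T hT => ?_⟩
    have hT0 : 0 < T := lt_of_lt_of_le one_pos ((le_max_right _ _).trans hT)
    obtain ⟨k1, k2, k3, k4, k5⟩ := hT₀ T ((le_max_left _ _).trans hT)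
    refine ⟨k1, k2, ?_, k4, k5⟩
    have key : ∀ θ x : ℝ, (∀ s : ℝ, p s ≤ θ * s → s ≤ x) →
        volume.real {t : ℝ | t ∈ Set.Icc T (2 * T) ∧ (count (d / Real.log T) (gap G T) t : ℝ) < θ * (2 * G)} ≤ x * T := by
      intro θ x hx
      rw [← div_le_iff₀ hT0]
      refine hx _ (k3 θ _ ?_)
      rw [div_mul_cancel₀ _ hT0.ne']
      rfl
    rintro ⟨θ, x⟩ hx
    simp only [Set.mem_insert_iff, Set.mem_singleton_iff, Prod.mk.injEq] at hx
    rcases hx with ⟨rfl, rfl⟩ | ⟨rfl, rfl⟩ | ⟨rfl, rfl⟩ | ⟨rfl, rfl⟩ | ⟨rfl, rfl⟩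
    · exact key _ _ fun s hs => Pool.Agent.H510.EW.solve_few ((le_max_right _ _).trans hs) (by norm_num) (by norm_num)
    · exact key _ _ fun s hs => Pool.Agent.H510.EW.solve_few (((le_max_right _ _).trans (le_max_left _ _)).trans hs)
        (by norm_num) (by norm_num)
    · exact key _ _ fun s hs => Pool.Agent.H510.EW.solve_few
        (((le_max_right _ _).trans ((le_max_left _ _).trans (le_max_left _ _))).trans hs) (by norm_num) (by norm_num)
    · exact key _ _ fun s hs => Pool.Agent.H510.EW.solve_few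
        (((le_max_right _ _).trans ((le_max_left _ _).trans (le_max_left _ _))).trans hs) (by norm_num) (by norm_num)
    · exact key _ _ fun s hs => Pool.Agent.H510.EW.solve_few
        (((le_max_right _ _).trans ((le_max_left _ _).trans ((le_max_left _ _).trans (le_max_left _ _)))).trans hs)
        (by norm_num) (by norm_num)

end Pool.Agent.Results.MP_6bc78b_nt.SimpleZerosNearSets
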