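import Pool.Agent.H362.LD.Ew2
import Pool.Graph.R_pool_sql_team_seeded_620a6dc7.Results.MP_6bc78b_nt.MomentsAtZeros

set_option autoImplicit false

/-!
# The zeros of Hardy's function around the points where it has a given size, and the size of the derivative

No hypothesis. `L = log T`, `c = 1/2 + cot(1/√2)/√2 ≤ 1.3275`.

* Exceptional windows. For every real `κ`, positive or negative, and every `ε > 0`, for all large `T`, there is a set of measure at least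
  `T L ^ (-κ ^ 2 - ε)` in `[T, 2T]` of points `t` with `L ^ (κ - ε) ≤ |Z(t)| ≤ L ^ (κ + ε)` such that, for some `r` between
  `L ^ (e - 1)` and `L ^ (ε - 1)`, at least the proportion `2 - c - ε` (67.25 percent) of all the nontrivial zeros with ordinate in
  `[t - r, t + r]`, counted with multiplicity, and at least `(2 - c - ε) r L / π` of them, are simple zeros of `Z`, at distance at least
  `d / L` from all others, with `L ^ (1 + κ - ε) ≤ |Z'| ≤ L ^ (1 + κ + ε)`. Uniformly for bounded `κ`.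
* The number of zeros with a derivative of given size. For every real `κ` at least `T L ^ (1 - κ ^ 2 - ε)` simple zeros `t` of `Z` in
  `(T, 2T]`, at distance at least `d / L` from all other nontrivial zeros, satisfy `L ^ (1 + κ - ε) ≤ |Z'(t)| ≤ L ^ (1 + κ + ε)`; the sum of
  `|Z'(t)| ^ (2 κ)` over these zeros is at least `T L ^ ((κ + 1) ^ 2 - ε)`. For `0 ≤ κ ≤ 2` this is sharp: at most
  `T L ^ (1 - κ ^ 2 + ε)` zeros `t` of `Z` in `(0, T]`, simple or not, satisfy `|Z'(t)| ≥ L ^ (1 + κ)`, and for `0 < κ < 2` the zeros of any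
  other size than `L ^ (1 + κ + o(1))` contribute to the sum of `|Z'(t)| ^ (2 κ)` over all zeros of `Z` in `(0, T]` less than the others by a
  power of `L`.
-/

namespace Pool.Agent.Results.MP_6bc78b_nt.SizesOfTheDerivative

open Filter Topology Complex

noncomputable section

/-- the phase `exp (i ϑ(t))`, with `ϑ(t) = arg Γ(1/4 + i t / 2) - (t / 2) log π` -/
def phase (t : ℝ) : ℂ :=
  Gamma (1 / 4 + I * t / 2) / ‖Gamma (1 / 4 + I * t / 2)‖ * cexp (-(I * (t / 2) * Real.log Real.pi))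

/-- Hardy's function `Z(t) = exp (i ϑ(t)) ζ(1/2 + i t)` -/
def Z (t : ℝ) : ℂ := phase t * riemannZeta (1 / 2 + I * t)

/-- `1/2 + i t` has distance at least `r` from every other nontrivial zero of zeta -/
def Isolated (r t : ℝ) : Prop := ∀ ρ : ℂ, riemannZeta ρ = 0 → 0 < ρ.re → ρ.re < 1 → ρ ≠ 1 / 2 + I * t →
  r ≤ ‖ρ - (1 / 2 + I * t)‖

/-- the simple zeros `t` of `Z` in `(T, 2T]`, at distance at least `d / log T` from every other nontrivial zero of zeta, with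
`(log T) ^ (1 + κ - ε) ≤ |Z'(t)| ≤ (log T) ^ (1 + κ + ε)` -/
def sized (d κ ε T : ℝ) : Set ℝ := {t : ℝ | T < t ∧ t ≤ 2 * T ∧ Z t = 0 ∧ deriv Z t ≠ 0 ∧ Isolated (d / Real.log T) t ∧
  Real.log T ^ (1 + κ - ε) ≤ ‖deriv Z t‖ ∧ ‖deriv Z t‖ ≤ Real.log T ^ (1 + κ + ε)}

/-- `c = 1.3274...` -/
def c : ℝ := 1 / 2 + Real.cot (1 / Real.sqrt 2) / Real.sqrt 2

/-- the simple zeros `γ` of `Z` with `|γ - t| ≤ r`, at distance at least `d / log T` from every other nontrivial zero of zeta, with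
`(log T) ^ (1 + κ - ε) ≤ |Z'(γ)| ≤ (log T) ^ (1 + κ + ε)` -/
def good (d κ ε T r t : ℝ) : Set ℝ := {γ : ℝ | |γ - t| ≤ r ∧ Z γ = 0 ∧ deriv Z γ ≠ 0 ∧ Isolated (d / Real.log T) γ ∧
  Real.log T ^ (1 + κ - ε) ≤ ‖deriv Z γ‖ ∧ ‖deriv Z γ‖ ≤ Real.log T ^ (1 + κ + ε)}

/-- the number of all the nontrivial zeros of zeta, on or off the line, with ordinate in `[t - r, t + r]`, counted with multiplicity -/
def count (r t : ℝ) : ℕ :=
  ∑ᶠ s ∈ {s : ℂ | riemannZeta s = 0 ∧ 0 < s.re ∧ s.re < 1 ∧ |s.im - t| ≤ r}, analyticOrderNatAt riemannZeta s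

/-- the zeros `t` of `Z` in `(0, T]` -/
def all (T : ℝ) : Set ℝ := {t : ℝ | 0 < t ∧ t ≤ T ∧ Z t = 0}

/-- the zeros `t` of `Z` in `(0, T]` with `|Z'(t)| ≥ (log T) ^ (1 + κ)` -/
def large (κ T : ℝ) : Set ℝ := {t : ℝ | t ∈ all T ∧ Real.log T ^ (1 + κ) ≤ ‖deriv Z t‖}

/-- the zeros `t` of `Z` in `(0, T]` at which `|Z'(t)|` is not between `(log T) ^ (1 + κ - ε)` and `(log T) ^ (1 + κ + ε)` -/
def off (κ ε T : ℝ) : Set ℝ := {t : ℝ | t ∈ all T ∧
  (‖deriv Z t‖ < Real.log T ^ (1 + κ - ε) ∨ Real.log T ^ (1 + κ + ε) < ‖deriv Z t‖)}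

lemma gamma_ne (t : ℝ) : Gamma (1 / 4 + I * t / 2) ≠ 0 := by
  apply Gamma_ne_zero_of_re_pos
  simp

lemma gamma_cont : Continuous fun t : ℝ => Gamma (1 / 4 + I * t / 2) := by
  rw [continuous_iff_continuousAt]
  intro t
  have h1 : ContinuousAt Gamma (1 / 4 + I * t / 2) := by
    refine (differentiableAt_Gamma _ fun m hm => ?_).continuousAt
    have := congrArg Complex.re hm
    simp at this
    have hm0 : (0 : ℝ) ≤ m := Nat.cast_nonneg m
    linarith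
  exact ContinuousAt.comp (f := fun t : ℝ => (1 / 4 + I * t / 2 : ℂ)) h1 (by fun_prop)

lemma phase_cont : Continuous phase := by
  unfold phase
  refine Continuous.mul (gamma_cont.div ?_ ?_) (by fun_prop)
  · exact Complex.continuous_ofReal.comp gamma_cont.norm
  · intro t
    rw [Complex.ofReal_ne_zero]
    exact norm_ne_zero_iff.mpr (gamma_ne t)

lemma phase_norm (t : ℝ) : ‖phase t‖ = 1 := by
  unfold phase
  rw [norm_mul, norm_div, Complex.norm_real, norm_norm, div_self (norm_ne_zero_iff.mpr (gamma_ne t)),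
    Complex.norm_exp, one_mul]
  have : (-(I * ((t : ℂ) / 2) * (Real.log Real.pi : ℂ))).re = 0 := by
    have e : -(I * ((t : ℂ) / 2) * (Real.log Real.pi : ℂ)) = ((-(t / 2 * Real.log Real.pi) : ℝ) : ℂ) * I := by
      push_cast; ring
    rw [e]
    simp
  rw [this, Real.exp_zero]

lemma phase_ne (t : ℝ) : phase t ≠ 0 := by
  rw [← norm_pos_iff, phase_norm]
  exact one_pos

lemma Z_zero_iff (t : ℝ) : Z t = 0 ↔ riemannZeta (1 / 2 + I * t) = 0 := by
  unfold Z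
  rw [mul_eq_zero]
  exact ⟨fun h => h.resolve_left (phase_ne t), Or.inr⟩

lemma zeta_diff (t : ℝ) : DifferentiableAt ℂ riemannZeta (1 / 2 + I * t) := by
  refine differentiableAt_riemannZeta fun h => ?_
  have := congrArg Complex.re h
  norm_num at this

lemma Z_hasDerivAt (t : ℝ) (h : riemannZeta (1 / 2 + I * t) = 0) :
    HasDerivAt Z (phase t * (deriv riemannZeta (1 / 2 + I * t) * I)) t := by
  have hg : HasDerivAt (fun u : ℝ => riemannZeta (1 / 2 + I * u))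
      (deriv riemannZeta (1 / 2 + I * t) * I) t := by
    have h1 : HasDerivAt (fun u : ℝ => (1 / 2 + I * u : ℂ)) I t := by
      have h2 : HasDerivAt (fun u : ℝ => (u : ℂ)) 1 t := Complex.ofRealCLM.hasDerivAt
      simpa using (h2.const_mul I).const_add (1 / 2 : ℂ)
    exact HasDerivAt.comp (h₂ := riemannZeta) t (zeta_diff t).hasDerivAt h1
  rw [hasDerivAt_iff_tendsto_slope] at hg ⊢
  have h3 : Tendsto phase (𝓝[≠] t) (𝓝 (phase t)) :=
    phase_cont.continuousAt.tendsto.mono_left nhdsWithin_le_nhds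
  refine (h3.mul hg).congr fun u => ?_
  have hZ : Z t = 0 := (Z_zero_iff t).mpr h
  rw [slope_def_module, slope_def_module, hZ, h, sub_zero, sub_zero]
  unfold Z
  simp only [Complex.real_smul]
  ring

lemma norm_deriv (t : ℝ) (h : riemannZeta (1 / 2 + I * t) = 0) :
    ‖deriv Z t‖ = ‖deriv riemannZeta (1 / 2 + I * t)‖ := by
  rw [(Z_hasDerivAt t h).deriv, norm_mul, norm_mul, phase_norm, Complex.norm_I, one_mul, mul_one]

lemma line_inj : Function.Injective fun t : ℝ => (1 / 2 + I * t : ℂ) := by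
  intro a b hab
  have := congrArg Complex.im hab
  simpa using this

lemma all_finite (T : ℝ) : (all T).Finite := by
  refine Set.Finite.of_finite_image ((H370.zeta_zeros_finite T).subset ?_) line_inj.injOn
  rintro s ⟨t, ⟨h1, h2, h3⟩, rfl⟩
  refine ⟨?_, ?_, ?_, ?_, (Z_zero_iff t).mp h3⟩ <;> simp <;> first | assumption | norm_num

lemma sized_finite (d κ ε T : ℝ) : (sized d κ ε T).Finite := by
  rcases le_or_gt T 0 with hT | hT
  · refine Set.Finite.subset Set.finite_empty fun t ht => ?_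
    have := ht.1
    have := ht.2.1
    linarith
  · exact (all_finite (2 * T)).subset fun t ht => ⟨by linarith [ht.1], ht.2.1, ht.2.2.1⟩

/-- the zeros of zeta that are counted in the helper file are the points `1/2 + i t`, `t` in `sized` -/
lemma image_eq (d κ ε T : ℝ) : (fun t : ℝ => (1 / 2 + I * t : ℂ)) '' sized d κ ε T = Pool.Agent.H362.LD.Sz d κ ε T := by
  ext s
  constructor
  · rintro ⟨t, ⟨h1, h2, h3, h4, h5, h6, h7⟩, rfl⟩
    have hz := (Z_zero_iff t).1 h3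
    have hn := norm_deriv t hz
    rw [hn] at h6 h7
    refine ⟨hz, by simp, by simpa using h1, by simpa using h2, ?_, h5, h6, h7⟩
    rw [← norm_ne_zero_iff, ← hn]
    exact norm_ne_zero_iff.2 h4
  · rintro ⟨h1, h2, h3, h4, h5, h6, h7, h8⟩
    have hs : (1 / 2 + I * s.im : ℂ) = s := by
      apply Complex.ext
      · simp [h2]
      · simp
    have hz : riemannZeta (1 / 2 + I * (s.im : ℂ)) = 0 := by rw [hs]; exact h1
    have hn := norm_deriv s.im hz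
    rw [hs] at hn
    refine ⟨s.im, ⟨h3, h4, (Z_zero_iff _).2 hz, ?_, ?_, ?_, ?_⟩, hs⟩
    · rw [← norm_ne_zero_iff, hn]
      exact norm_ne_zero_iff.2 h5
    · unfold Isolated
      rw [hs]
      exact h6
    · rw [hn]; exact h7
    · rw [hn]; exact h8

lemma good_finite (d κ ε T : ℝ) {r t : ℝ} (h : r < t) : (good d κ ε T r t).Finite := by
  refine (all_finite (t + r)).subset fun γ hγ => ?_
  have h1 := abs_le.1 hγ.1
  exact ⟨by linarith [h1.1], by linarith [h1.2], hγ.2.1⟩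

lemma good_card (d κ ε T r t : ℝ) : (good d κ ε T r t).ncard = (Pool.Agent.H362.LD.Gd d κ ε T r t).ncard := by
  rw [← Set.ncard_image_of_injective (good d κ ε T r t) line_inj]
  congr 1
  ext s
  constructor
  · rintro ⟨γ, ⟨h1, h3, h4, h5, h6, h7⟩, rfl⟩
    have hz := (Z_zero_iff γ).1 h3
    have hn := norm_deriv γ hz
    rw [hn] at h6 h7
    refine ⟨hz, by simp, by simpa using h1, ?_, h5, h6, h7⟩
    rw [← norm_ne_zero_iff, ← hn]
    exact norm_ne_zero_iff.2 h4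
  · rintro ⟨h1, h2, h3, h5, h6, h7, h8⟩
    have hs : (1 / 2 + I * s.im : ℂ) = s := by
      apply Complex.ext
      · simp [h2]
      · simp
    have hz : riemannZeta (1 / 2 + I * (s.im : ℂ)) = 0 := by rw [hs]; exact h1
    have hn := norm_deriv s.im hz
    rw [hs] at hn
    refine ⟨s.im, ⟨h3, (Z_zero_iff _).2 hz, ?_, ?_, ?_, ?_⟩, hs⟩
    · rw [← norm_ne_zero_iff, hn]
      exact norm_ne_zero_iff.2 h5
    · unfold Isolated
      rw [hs]
      exact h6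
    · rw [hn]; exact h7
    · rw [hn]; exact h8

lemma norm_Z (t : ℝ) : ‖Z t‖ = ‖riemannZeta (1 / 2 + t * I)‖ := by
  unfold Z
  rw [norm_mul, phase_norm, one_mul, mul_comm I]

/-- exceptional windows -/
lemma windows : ∀ ε : ℝ, 0 < ε → ε ≤ 1 / 2 → ∃ d : ℝ, 0 < d ∧ ∀ A : ℝ, ∃ e T₀ : ℝ, 0 < e ∧ ∀ T : ℝ, T₀ ≤ T →
    ∀ κ : ℝ, |κ| ≤ A → ∃ (r : ℝ) (E : Set ℝ), Real.log T ^ (e - 1) ≤ r ∧ r ≤ Real.log T ^ (ε - 1) ∧
      MeasurableSet E ∧ E ⊆ Set.Icc T (2 * T) ∧ T * Real.log T ^ (-κ ^ 2 - ε) ≤ MeasureTheory.volume.real E ∧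
      ∀ t ∈ E, Real.log T ^ (κ - ε) ≤ ‖Z t‖ ∧ ‖Z t‖ ≤ Real.log T ^ (κ + ε) ∧ (good d κ ε T r t).Finite ∧
        (2 - c - ε) * (r * Real.log T / Real.pi) ≤ ((good d κ ε T r t).ncard : ℝ) ∧
        (2 - c - ε) * (count r t : ℝ) ≤ ((good d κ ε T r t).ncard : ℝ) := by
  intro ε hε hε1
  obtain ⟨d, hd, h⟩ := Pool.Agent.H362.LD.ew2 ε hε hε1
  refine ⟨d, hd, fun A => ?_⟩
  obtain ⟨e, he, h⟩ := h A
  obtain ⟨T₀, hT₀⟩ := eventually_atTop.1 h
  refine ⟨e, T₀, he, fun T hT κ hκ => ?_⟩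
  obtain ⟨r, E, h1, h2, h3, h4, h5, h6⟩ := hT₀ T hT κ hκ
  refine ⟨r, E, h1, h2, h3, h4, h5, fun t ht => ?_⟩
  obtain ⟨a1, a2, a3, a4, a5⟩ := h6 t ht
  rw [norm_Z, good_card]
  exact ⟨a2, a3, good_finite _ _ _ _ a1, a4, a5⟩

lemma sized_card (d κ ε T : ℝ) : (sized d κ ε T).ncard = (Pool.Agent.H362.LD.Sz d κ ε T).ncard := by
  rw [← image_eq, Set.ncard_image_of_injective _ line_inj]

lemma sized_mono {d κ ε ε' T : ℝ} (hT : 1 ≤ Real.log T) (h : ε' ≤ ε) : sized d κ ε' T ⊆ sized d κ ε T := by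
  rintro t ⟨h1, h2, h3, h4, h5, h6, h7⟩
  refine ⟨h1, h2, h3, h4, h5, le_trans ?_ h6, h7.trans ?_⟩
  · exact Real.rpow_le_rpow_of_exponent_le hT (by linarith)
  · exact Real.rpow_le_rpow_of_exponent_le hT (by linarith)

/-- lower bounds -/
lemma lower : ∃ d : ℝ, 0 < d ∧ ∀ A ε : ℝ, 0 < ε → ∃ T₀ : ℝ, ∀ T : ℝ, T₀ ≤ T → ∀ κ : ℝ, |κ| ≤ A →
    T * Real.log T ^ (1 - κ ^ 2 - ε) ≤ ((sized d κ ε T).ncard : ℝ) ∧
    T * Real.log T ^ ((κ + 1) ^ 2 - ε) ≤ ∑ᶠ t ∈ sized d κ ε T, ‖deriv Z t‖ ^ (2 * κ) := by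
  obtain ⟨d, hd, h⟩ := Pool.Agent.H362.LD.unif
  refine ⟨d, hd, fun A ε hε => ?_⟩
  by_cases hA : A < 0
  · exact ⟨0, fun T _ κ hκ => absurd (hκ.trans_lt hA) (not_lt.2 (abs_nonneg _))⟩
  push Not at hA
  set ε' : ℝ := ε / (1 + 2 * A) with hε'
  have hε'0 : 0 < ε' := by positivity
  have hε'1 : ε' * (1 + 2 * A) = ε := by rw [hε']; field_simp
  have hε'2 : ε' ≤ ε := by nlinarith
  obtain ⟨T₀, hT₀⟩ := eventually_atTop.1 ((h A ε hε).and ((h A ε' hε'0).and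
    ((eventually_ge_atTop 10).and (Real.tendsto_log_atTop.eventually_ge_atTop 1))))
  refine ⟨T₀, fun T hT κ hκ => ?_⟩
  obtain ⟨h1, h2, h3, h4⟩ := hT₀ T hT
  have hT0 : 0 < T := by linarith
  have hL0 : 0 < Real.log T := by linarith
  refine ⟨by rw [sized_card]; exact h1 κ hκ, ?_⟩
  have hκ' := abs_le.1 hκ
  have h5 := h2 κ hκ
  rw [← sized_card] at h5
  have hfin := sized_finite d κ ε' T
  have hfin2 := sized_finite d κ ε T
  have hterm : ∀ t ∈ sized d κ ε' T, Real.log T ^ (2 * κ * (1 + κ) - 2 * A * ε') ≤ ‖deriv Z t‖ ^ (2 * κ) := by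
    rintro t ⟨-, -, -, -, -, a, b⟩
    rcases le_or_gt 0 κ with hk | hk
    · calc Real.log T ^ (2 * κ * (1 + κ) - 2 * A * ε') ≤ Real.log T ^ ((1 + κ - ε') * (2 * κ)) := by
            refine Real.rpow_le_rpow_of_exponent_le h4 ?_
            nlinarith [mul_le_mul_of_nonneg_right hκ'.2 hε'0.le]
        _ = (Real.log T ^ (1 + κ - ε')) ^ (2 * κ) := Real.rpow_mul hL0.le _ _
        _ ≤ _ := Real.rpow_le_rpow (Real.rpow_nonneg hL0.le _) a (by linarith)
    · have hpos : 0 < ‖deriv Z t‖ := (Real.rpow_pos_of_pos hL0 _).trans_le a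
      calc Real.log T ^ (2 * κ * (1 + κ) - 2 * A * ε') ≤ Real.log T ^ ((1 + κ + ε') * (2 * κ)) := by
            refine Real.rpow_le_rpow_of_exponent_le h4 ?_
            nlinarith [mul_le_mul_of_nonneg_right hκ'.1 hε'0.le]
        _ = (Real.log T ^ (1 + κ + ε')) ^ (2 * κ) := Real.rpow_mul hL0.le _ _
        _ ≤ _ := Real.rpow_le_rpow_of_nonpos hpos b (by linarith)
  calc T * Real.log T ^ ((κ + 1) ^ 2 - ε) =
        T * Real.log T ^ (1 - κ ^ 2 - ε') * Real.log T ^ (2 * κ * (1 + κ) - 2 * A * ε') := by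
          rw [mul_assoc, ← Real.rpow_add hL0]
          congr 2
          rw [← hε'1]
          ring
    _ ≤ ((sized d κ ε' T).ncard : ℝ) * Real.log T ^ (2 * κ * (1 + κ) - 2 * A * ε') := by gcongr
    _ ≤ ∑ᶠ t ∈ sized d κ ε' T, ‖deriv Z t‖ ^ (2 * κ) := by
          rw [finsum_mem_eq_finite_toFinset_sum _ hfin, Set.ncard_eq_toFinset_card _ hfin, ← nsmul_eq_mul]
          refine Finset.card_nsmul_le_sum _ _ _ fun t ht => hterm t ?_
          rwa [Set.Finite.mem_toFinset] at ht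
    _ ≤ _ := by
          rw [finsum_mem_eq_finite_toFinset_sum _ hfin, finsum_mem_eq_finite_toFinset_sum _ hfin2]
          refine Finset.sum_le_sum_of_subset_of_nonneg ?_ fun _ _ _ => by positivity
          intro t ht
          rw [Set.Finite.mem_toFinset] at ht ⊢
          exact sized_mono h4 hε'2 ht

/-- the upper bound for the moments over all zeros of `Z` -/
lemma mom {lam : ℝ} (h0 : 0 < lam) (h1 : lam ≤ 2) : ∃ C T₀ : ℝ, 0 < C ∧ ∀ T : ℝ, T₀ ≤ T →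
    ∑ᶠ t ∈ all T, ‖deriv Z t‖ ^ (2 * lam) ≤ C * (T * Real.log T ^ ((lam + 1) ^ 2)) := by
  obtain ⟨C, W, T₀, hC, h⟩ := Pool.Agent.Results.MP_6bc78b_nt.MomentsAtZeros.result 0 (2 * lam) 1 0 le_rfl
    (by linarith)
  obtain ⟨T₁, hT₁⟩ := eventually_atTop.1 (Real.tendsto_log_atTop.eventually_ge_atTop 2)
  refine ⟨C, max T₀ T₁, hC, fun T hT => ?_⟩
  have hL2 := hT₁ T ((le_max_right _ _).trans hT)
  obtain ⟨hfin, h2⟩ := h T ((le_max_left _ _).trans hT)
  have h3 := (h2 1 le_rfl (by linarith) (fun _ => 0) (fun ρ _ => by simp) 1 le_rfl).2 (by linarith)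
  have e1 : (1:ℝ) + ((1:ℕ):ℝ) * (2 * lam) + (2 * lam) ^ 2 / 4 = (lam + 1) ^ 2 := by
    push_cast; ring
  rw [e1, pow_zero, one_mul] at h3
  refine le_trans ?_ h3
  have himg : (fun t : ℝ => (1 / 2 + I * t : ℂ)) '' all T =
      Pool.Agent.Results.MP_6bc78b_nt.MomentsAtZeros.nearZeros 0 T := by
    ext s
    constructor
    · rintro ⟨t, ⟨a1, a2, a3⟩, rfl⟩
      refine ⟨(Z_zero_iff t).1 a3, ?_, ?_, ?_⟩ <;> simp <;> assumption
    · rintro ⟨a1, a2, a3, a4⟩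
      rw [zero_div] at a2
      have a5 : s.re = 1 / 2 := by linarith [abs_nonpos_iff.1 a2]
      have hs : (1 / 2 + I * s.im : ℂ) = s := by
        apply Complex.ext
        · simp [a5]
        · simp
      exact ⟨s.im, ⟨a3, a4, (Z_zero_iff _).2 (by rw [hs]; exact a1)⟩, hs⟩
  have e2 : ∑ᶠ t ∈ all T, ‖deriv Z t‖ ^ (2 * lam) =
      ∑ᶠ s ∈ Pool.Agent.Results.MP_6bc78b_nt.MomentsAtZeros.nearZeros 0 T, ‖deriv riemannZeta s‖ ^ (2 * lam) := by
    rw [← himg, finsum_mem_image line_inj.injOn]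
    refine finsum_mem_congr rfl fun t ht => ?_
    rw [norm_deriv t ((Z_zero_iff t).1 ht.2.2)]
  rw [e2]
  unfold Pool.Agent.Results.MP_6bc78b_nt.MomentsAtZeros.zeroSum
  rw [finsum_mem_eq_finite_toFinset_sum _ hfin, finsum_mem_eq_finite_toFinset_sum _ hfin]
  refine Finset.sum_le_sum fun s hs => ?_
  rw [Set.Finite.mem_toFinset] at hs
  have hm : (1:ℝ) ≤ (Pool.Agent.Results.MP_6bc78b_nt.MomentsAtZeros.mult s : ℝ) := by
    have := H370.Loc.mult_pos' H370.good_zeta hs.2.2.1 hs.1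
    exact_mod_cast this
  simp only [pow_zero, mul_one, iteratedDeriv_one, add_zero]
  exact le_mul_of_one_le_left (by positivity) hm

/-- upper bound for the number of zeros with a large derivative -/
lemma upper (ε : ℝ) (hε : 0 < ε) : ∃ T₀ : ℝ, ∀ T : ℝ, T₀ ≤ T → ∀ κ : ℝ, 0 ≤ κ → κ ≤ 2 →
    ((large κ T).ncard : ℝ) ≤ T * Real.log T ^ (1 - κ ^ 2 + ε) := by
  obtain ⟨N, hN⟩ := exists_nat_gt (max 1 (2 / ε))
  have hN1 : (1:ℝ) < N := (le_max_left _ _).trans_lt hN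
  have hNε : 2 / ε < N := (le_max_right _ _).trans_lt hN
  have hN0 : (0:ℝ) < N := by linarith
  have hNn : 2 ≤ N := by
    have : 1 < N := by exact_mod_cast hN1
    omega
  have hNi : (1 / (N:ℝ)) ^ 2 ≤ ε / 2 := by
    have h1 : 1 / (N:ℝ) ≤ ε / 2 := by
      rw [div_le_div_iff₀ hN0 (by norm_num)]
      rw [div_lt_iff₀ hε] at hNε
      linarith
    have h2 : 1 / (N:ℝ) ≤ 1 := by rw [div_le_one hN0]; linarith
    have h3 : 0 < 1 / (N:ℝ) := by positivity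
    nlinarith
  have hev : ∀ᶠ T : ℝ in atTop, ∀ j ∈ Finset.Icc 1 (2 * N),
      ∑ᶠ t ∈ all T, ‖deriv Z t‖ ^ (2 * ((j:ℝ) / N)) ≤
        Real.log T ^ (ε / 2) * (T * Real.log T ^ (((j:ℝ) / N + 1) ^ 2)) := by
    rw [Filter.eventually_all_finset]
    intro j hj
    rw [Finset.mem_Icc] at hj
    have hj0 : (0:ℝ) < (j:ℝ) / N := by
      have : (0:ℝ) < j := by exact_mod_cast hj.1
      positivity
    have hj1 : (j:ℝ) / N ≤ 2 := by
      rw [div_le_iff₀ hN0]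
      exact_mod_cast hj.2
    obtain ⟨C, T₀, hC, h⟩ := mom hj0 hj1
    have hl : Tendsto (fun T : ℝ => Real.log T ^ (ε / 2)) atTop atTop :=
      (tendsto_rpow_atTop (by positivity)).comp Real.tendsto_log_atTop
    filter_upwards [eventually_ge_atTop T₀, hl.eventually_ge_atTop C, eventually_ge_atTop 10]
      with T t1 t2 t3
    refine (h T t1).trans ?_
    have : 0 ≤ Real.log T := Real.log_nonneg (by linarith)
    gcongr
  obtain ⟨T₀, hT₀⟩ := eventually_atTop.1 (hev.and ((eventually_ge_atTop 10).and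
    (Real.tendsto_log_atTop.eventually_ge_atTop 1)))
  refine ⟨T₀, fun T hT κ hκ0 hκ1 => ?_⟩
  obtain ⟨h1, h2, h3⟩ := hT₀ T hT
  have hT0 : 0 < T := by linarith
  have hL0 : 0 < Real.log T := by linarith
  -- the grid point
  obtain ⟨j, hj, hjκ⟩ : ∃ j ∈ Finset.Icc 1 (2 * N), |(j:ℝ) / N - κ| ≤ 1 / N := by
    by_cases hc : κ * N < 1
    · refine ⟨1, ?_, ?_⟩
      · rw [Finset.mem_Icc]; omega
      · have h4 : κ < 1 / N := by rw [lt_div_iff₀ hN0]; exact hc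
        rw [Nat.cast_one, abs_le]
        constructor <;> linarith
    · push Not at hc
      have h5 := Nat.floor_le (show 0 ≤ κ * N by positivity)
      have h6 := Nat.lt_floor_add_one (κ * N)
      have h7 : 1 ≤ ⌊κ * N⌋₊ := by
        rw [Nat.one_le_floor_iff]
        exact hc
      refine ⟨⌊κ * N⌋₊, ?_, ?_⟩
      · rw [Finset.mem_Icc]
        refine ⟨h7, ?_⟩
        have h8 : (⌊κ * N⌋₊ : ℝ) ≤ 2 * N := h5.trans (mul_le_mul_of_nonneg_right hκ1 hN0.le)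
        exact_mod_cast h8
      · have h8 : (⌊κ * N⌋₊ : ℝ) / N ≤ κ := by rw [div_le_iff₀ hN0]; exact h5
        have h9 : κ ≤ (⌊κ * N⌋₊ : ℝ) / N + 1 / N := by
          rw [← add_div, le_div_iff₀ hN0]
          exact h6.le
        have h10 : 0 ≤ 1 / (N:ℝ) := by positivity
        rw [abs_le]
        constructor
        · linarith
        · linarith
  have h4 := h1 j hj
  set lam : ℝ := (j:ℝ) / N with hlam
  have hlam0 : 0 ≤ lam := by positivity
  have hfin := all_finite T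
  have hfl : (large κ T).Finite := hfin.subset fun t ht => ht.1
  -- Chebyshev
  have h5 : ((large κ T).ncard : ℝ) * Real.log T ^ ((1 + κ) * (2 * lam)) ≤
      ∑ᶠ t ∈ all T, ‖deriv Z t‖ ^ (2 * lam) := by
    rw [finsum_mem_eq_finite_toFinset_sum _ hfin, Set.ncard_eq_toFinset_card _ hfl, ← nsmul_eq_mul]
    refine le_trans (Finset.card_nsmul_le_sum _ (fun t => ‖deriv Z t‖ ^ (2 * lam)) _ fun t ht => ?_) ?_
    · rw [Set.Finite.mem_toFinset] at ht
      rw [Real.rpow_mul hL0.le]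
      exact Real.rpow_le_rpow (Real.rpow_nonneg hL0.le _) ht.2 (by positivity)
    · refine Finset.sum_le_sum_of_subset_of_nonneg ?_ fun _ _ _ => by positivity
      intro t ht
      rw [Set.Finite.mem_toFinset] at ht ⊢
      exact ht.1
  have h6 := h5.trans h4
  have hp : 0 < Real.log T ^ ((1 + κ) * (2 * lam)) := Real.rpow_pos_of_pos hL0 _
  rw [← le_div_iff₀ hp] at h6
  refine h6.trans ?_
  rw [div_le_iff₀ hp, mul_assoc T, ← Real.rpow_add hL0]
  calc Real.log T ^ (ε / 2) * (T * Real.log T ^ ((lam + 1) ^ 2)) =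
        T * Real.log T ^ (ε / 2 + (lam + 1) ^ 2) := by
          rw [Real.rpow_add hL0]; ring
    _ ≤ _ := by
        refine mul_le_mul_of_nonneg_left ?_ hT0.le
        refine Real.rpow_le_rpow_of_exponent_le h3 ?_
        have h7 : (lam - κ) ^ 2 ≤ (1 / (N:ℝ)) ^ 2 := sq_le_sq' (by linarith [(abs_le.1 hjκ).1]) (abs_le.1 hjκ).2
        nlinarith

/-- the zeros of another size contribute little to the moment -/
lemma conc {κ ε : ℝ} (hε : 0 < ε) (h0 : ε < κ) (h1 : κ + ε ≤ 2) : ∃ C T₀ : ℝ, ∀ T : ℝ, T₀ ≤ T →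
    ∑ᶠ t ∈ off κ ε T, ‖deriv Z t‖ ^ (2 * κ) ≤ C * (T * Real.log T ^ ((κ + 1) ^ 2 - ε ^ 2)) := by
  obtain ⟨C₁, T₁, hC₁, h₁⟩ := mom (lam := κ + ε) (by linarith) h1
  obtain ⟨C₂, T₂, hC₂, h₂⟩ := mom (lam := κ - ε) (by linarith) (by linarith)
  refine ⟨C₁ + C₂, max (max T₁ T₂) 10, fun T hT => ?_⟩
  have hT1 : T₁ ≤ T := (le_max_left _ _).trans ((le_max_left _ _).trans hT)
  have hT2 : T₂ ≤ T := (le_max_right _ _).trans ((le_max_left _ _).trans hT)
  have hT3 : 10 ≤ T := (le_max_right _ _).trans hT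
  have hT0 : 0 < T := by linarith
  have hL0 : 0 < Real.log T := Real.log_pos (by linarith)
  have hfin := all_finite T
  have hfo : (off κ ε T).Finite := hfin.subset fun t ht => ht.1
  have a1 := h₁ T hT1
  have a2 := h₂ T hT2
  rw [finsum_mem_eq_finite_toFinset_sum _ hfin] at a1 a2
  rw [finsum_mem_eq_finite_toFinset_sum _ hfo]
  have hsub : hfo.toFinset ⊆ hfin.toFinset := by
    intro t ht
    rw [Set.Finite.mem_toFinset] at ht ⊢
    exact ht.1
  have hp1 : 0 < Real.log T ^ (-(2 * ε * (1 + κ + ε))) := Real.rpow_pos_of_pos hL0 _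
  have hp2 : 0 < Real.log T ^ (2 * ε * (1 + κ - ε)) := Real.rpow_pos_of_pos hL0 _
  have hpt : ∀ t ∈ hfo.toFinset, ‖deriv Z t‖ ^ (2 * κ) ≤
      Real.log T ^ (-(2 * ε * (1 + κ + ε))) * ‖deriv Z t‖ ^ (2 * (κ + ε)) +
      Real.log T ^ (2 * ε * (1 + κ - ε)) * ‖deriv Z t‖ ^ (2 * (κ - ε)) := by
    intro t ht
    rw [Set.Finite.mem_toFinset] at ht
    have hx0 : 0 ≤ ‖deriv Z t‖ := norm_nonneg _
    rcases hx0.eq_or_lt with hx | hx
    · rw [← hx, Real.zero_rpow (by linarith)]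
      have : (0:ℝ) ≤ (0:ℝ) ^ (2 * (κ + ε)) := by positivity
      have : (0:ℝ) ≤ (0:ℝ) ^ (2 * (κ - ε)) := by positivity
      positivity
    · rcases ht.2 with h | h
      · have b1 : ‖deriv Z t‖ ^ (2 * ε) ≤ Real.log T ^ (2 * ε * (1 + κ - ε)) := by
          calc ‖deriv Z t‖ ^ (2 * ε) ≤ (Real.log T ^ (1 + κ - ε)) ^ (2 * ε) :=
                Real.rpow_le_rpow hx0 h.le (by positivity)
            _ = _ := by rw [← Real.rpow_mul hL0.le]; congr 1; ring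
        have b2 : ‖deriv Z t‖ ^ (2 * κ) = ‖deriv Z t‖ ^ (2 * ε) * ‖deriv Z t‖ ^ (2 * (κ - ε)) := by
          rw [← Real.rpow_add hx]; congr 1; ring
        have b3 : 0 ≤ Real.log T ^ (-(2 * ε * (1 + κ + ε))) * ‖deriv Z t‖ ^ (2 * (κ + ε)) := by positivity
        have b4 : ‖deriv Z t‖ ^ (2 * ε) * ‖deriv Z t‖ ^ (2 * (κ - ε)) ≤
            Real.log T ^ (2 * ε * (1 + κ - ε)) * ‖deriv Z t‖ ^ (2 * (κ - ε)) := by gcongr
        linarith
      · have b1 : Real.log T ^ (2 * ε * (1 + κ + ε)) ≤ ‖deriv Z t‖ ^ (2 * ε) := by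
          calc Real.log T ^ (2 * ε * (1 + κ + ε)) = (Real.log T ^ (1 + κ + ε)) ^ (2 * ε) := by
                rw [← Real.rpow_mul hL0.le]; congr 1; ring
            _ ≤ _ := Real.rpow_le_rpow (Real.rpow_nonneg hL0.le _) h.le (by positivity)
        have b2 : ‖deriv Z t‖ ^ (2 * (κ + ε)) = ‖deriv Z t‖ ^ (2 * ε) * ‖deriv Z t‖ ^ (2 * κ) := by
          rw [← Real.rpow_add hx]; congr 1; ring
        have b3 : 0 ≤ Real.log T ^ (2 * ε * (1 + κ - ε)) * ‖deriv Z t‖ ^ (2 * (κ - ε)) := by positivity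
        have b4 : ‖deriv Z t‖ ^ (2 * κ) ≤ Real.log T ^ (-(2 * ε * (1 + κ + ε))) * ‖deriv Z t‖ ^ (2 * (κ + ε)) := by
          rw [b2, ← mul_assoc]
          have : 1 ≤ Real.log T ^ (-(2 * ε * (1 + κ + ε))) * ‖deriv Z t‖ ^ (2 * ε) := by
            calc (1:ℝ) = Real.log T ^ (-(2 * ε * (1 + κ + ε))) * Real.log T ^ (2 * ε * (1 + κ + ε)) := by
                  rw [← Real.rpow_add hL0, neg_add_cancel, Real.rpow_zero]
              _ ≤ _ := by gcongr
          have hk : 0 ≤ ‖deriv Z t‖ ^ (2 * κ) := by positivity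
          nlinarith
        linarith
  calc ∑ t ∈ hfo.toFinset, ‖deriv Z t‖ ^ (2 * κ) ≤ ∑ t ∈ hfo.toFinset,
        (Real.log T ^ (-(2 * ε * (1 + κ + ε))) * ‖deriv Z t‖ ^ (2 * (κ + ε)) +
        Real.log T ^ (2 * ε * (1 + κ - ε)) * ‖deriv Z t‖ ^ (2 * (κ - ε))) := Finset.sum_le_sum hpt
    _ ≤ ∑ t ∈ hfin.toFinset,
        (Real.log T ^ (-(2 * ε * (1 + κ + ε))) * ‖deriv Z t‖ ^ (2 * (κ + ε)) +
        Real.log T ^ (2 * ε * (1 + κ - ε)) * ‖deriv Z t‖ ^ (2 * (κ - ε))) :=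
          Finset.sum_le_sum_of_subset_of_nonneg hsub fun _ _ _ => by positivity
    _ = Real.log T ^ (-(2 * ε * (1 + κ + ε))) * ∑ t ∈ hfin.toFinset, ‖deriv Z t‖ ^ (2 * (κ + ε)) +
        Real.log T ^ (2 * ε * (1 + κ - ε)) * ∑ t ∈ hfin.toFinset, ‖deriv Z t‖ ^ (2 * (κ - ε)) := by
          rw [Finset.sum_add_distrib, Finset.mul_sum, Finset.mul_sum]
    _ ≤ Real.log T ^ (-(2 * ε * (1 + κ + ε))) * (C₁ * (T * Real.log T ^ ((κ + ε + 1) ^ 2))) +
        Real.log T ^ (2 * ε * (1 + κ - ε)) * (C₂ * (T * Real.log T ^ ((κ - ε + 1) ^ 2))) := by gcongr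
    _ = (C₁ + C₂) * (T * Real.log T ^ ((κ + 1) ^ 2 - ε ^ 2)) := by
          have e1 : Real.log T ^ ((κ + 1) ^ 2 - ε ^ 2) =
              Real.log T ^ (-(2 * ε * (1 + κ + ε))) * Real.log T ^ ((κ + ε + 1) ^ 2) := by
            rw [← Real.rpow_add hL0]; congr 1; ring
          have e2 : Real.log T ^ ((κ + 1) ^ 2 - ε ^ 2) =
              Real.log T ^ (2 * ε * (1 + κ - ε)) * Real.log T ^ ((κ - ε + 1) ^ 2) := by
            rw [← Real.rpow_add hL0]; congr 1; ring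
          rw [add_mul]
          congr 1
          · rw [e1]; ring
          · rw [e2]; ring

/-- **the zeros of Hardy's function around the points where it has a given size, and the size of the derivative** -/
theorem result :
    -- the sets of zeros are finite, and at a zero `|Z'(t)| = |ζ'(1/2 + it)|`
    (∀ T : ℝ, (all T).Finite) ∧ (∀ d κ ε T : ℝ, (sized d κ ε T).Finite) ∧
    (∀ t : ℝ, Z t = 0 → ‖deriv Z t‖ = ‖deriv riemannZeta (1 / 2 + I * t)‖) ∧ c ≤ 1.3275 ∧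
    -- exceptional windows: the zeros around the points where `|Z| = (log T) ^ (κ + o(1))`
    (∀ ε : ℝ, 0 < ε → ε ≤ 1 / 2 → ∃ d : ℝ, 0 < d ∧ ∀ A : ℝ, ∃ e T₀ : ℝ, 0 < e ∧ ∀ T : ℝ, T₀ ≤ T →
      ∀ κ : ℝ, |κ| ≤ A → ∃ (r : ℝ) (E : Set ℝ), Real.log T ^ (e - 1) ≤ r ∧ r ≤ Real.log T ^ (ε - 1) ∧
        MeasurableSet E ∧ E ⊆ Set.Icc T (2 * T) ∧ T * Real.log T ^ (-κ ^ 2 - ε) ≤ MeasureTheory.volume.real E ∧
        ∀ t ∈ E, Real.log T ^ (κ - ε) ≤ ‖Z t‖ ∧ ‖Z t‖ ≤ Real.log T ^ (κ + ε) ∧ (good d κ ε T r t).Finite ∧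
          (2 - c - ε) * (r * Real.log T / Real.pi) ≤ ((good d κ ε T r t).ncard : ℝ) ∧
          (2 - c - ε) * (count r t : ℝ) ≤ ((good d κ ε T r t).ncard : ℝ)) ∧
    -- lower bounds for all real `κ`, for isolated simple zeros
    (∃ d : ℝ, 0 < d ∧ ∀ A ε : ℝ, 0 < ε → ∃ T₀ : ℝ, ∀ T : ℝ, T₀ ≤ T → ∀ κ : ℝ, |κ| ≤ A →
      T * Real.log T ^ (1 - κ ^ 2 - ε) ≤ ((sized d κ ε T).ncard : ℝ) ∧
      T * Real.log T ^ ((κ + 1) ^ 2 - ε) ≤ ∑ᶠ t ∈ sized d κ ε T, ‖deriv Z t‖ ^ (2 * κ)) ∧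
    -- upper bounds for `0 ≤ κ ≤ 2`, for all zeros of `Z`
    (∀ ε : ℝ, 0 < ε → ∃ T₀ : ℝ, ∀ T : ℝ, T₀ ≤ T → ∀ κ : ℝ, 0 ≤ κ → κ ≤ 2 →
      ((large κ T).ncard : ℝ) ≤ T * Real.log T ^ (1 - κ ^ 2 + ε)) ∧
    -- the size of the zeros that carry the moments
    (∀ κ ε : ℝ, 0 < ε → ε < κ → κ + ε ≤ 2 → ∃ C T₀ : ℝ, ∀ T : ℝ, T₀ ≤ T →
      ∑ᶠ t ∈ off κ ε T, ‖deriv Z t‖ ^ (2 * κ) ≤ C * (T * Real.log T ^ ((κ + 1) ^ 2 - ε ^ 2))) :=
  ⟨all_finite, sized_finite, fun t ht => norm_deriv t ((Z_zero_iff t).1 ht), Pool.Agent.W354.ZP.cMTinv_sharp, windows, lower, upper,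
    fun _ _ h1 h2 h3 => conc h1 h2 h3⟩

end

end Pool.Agent.Results.MP_6bc78b_nt.SizesOfTheDerivative
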